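import Mathlib

set_option autoImplicit false

open Finset

namespace Pool.Agent.H469R10.HO

/-- frequencies -/
noncomputable def uu (c lam : ℝ) (n : ℕ) : ℝ := c * (n : ℝ) ^ (1 / lam)

/-- nodes -/
noncomputable def xx (j : ℕ) : ℝ := Real.pi / 2 * j

/-- weights -/
noncomputable def WW (c : ℝ) (j : ℕ) : ℝ := (1 + j) * (Real.log ((1 + j) / c)) ^ 4

/-- index of the cell containing `u`: nearest node -/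
noncomputable def cell (u : ℝ) : ℕ := ⌊2 / Real.pi * u + 1 / 2⌋₊

/-- TASK F: from a theta relation of weight `k` to the entire function. -/
def TaskF : Prop := ∀ (c lam k : ℝ), 0 < c → 1 ≤ lam → 1 < k → ∀ (A : ℕ → ℝ), A 0 = 0 →
  Summable (fun n => |A n| * (uu c lam n) ^ (-(k - 1))) → ∀ ε : ℝ, (ε = 1 ∨ ε = -1) →
  (∀ t : ℝ, 0 < t → ∑' n, A n * Real.exp (-(uu c lam n / t)) = ε * t ^ k * ∑' n, A n * Real.exp (-(uu c lam n * t))) →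
  ∃ Λ : ℂ → ℂ, Differentiable ℂ Λ ∧ (∀ z : ℂ, Λ (k - z) = ε * Λ z) ∧
    (∀ z : ℂ, Λ ((starRingEnd ℂ) z) = (starRingEnd ℂ) (Λ z)) ∧
    (∀ z : ℂ, k < z.re → HasSum (fun n : ℕ => if n = 0 then 0 else (A n : ℂ) * ((uu c lam n : ℝ) : ℂ) ^ (-z))
      (Λ z * (Complex.Gamma z)⁻¹)) ∧
    ∃ C : ℝ, ∀ z : ℂ, ‖Λ z * (Complex.Gamma z)⁻¹‖ ≤ Real.exp (C * (1 + ‖z‖) ^ 2)

/-- TASK G: from the boundary relation of weight `-2m` to the theta relation of weight `2m+2`. -/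
def TaskG : Prop := ∀ (m : ℕ), 1 ≤ m → ∀ (α u : ℕ → ℝ), Summable (fun n => |α n|) → u 0 = 0 → (∀ n, 1 ≤ n → 0 < u n) →
  ∀ σ : ℝ, (σ = 1 ∨ σ = -1) →
  (∀ x : ℝ, 0 < x → ∑' n, α n * Real.cos (u n * x) = σ * x ^ (2 * m) * ∑' n, α n * Real.cos (u n / x)) →
  ∀ t : ℝ, 0 < t → ∑' n, α n * u n ^ (2 * m + 1) * Real.exp (-(u n / t)) =
    (-1) ^ (m + 1) * σ * t ^ (2 * m + 2) * ∑' n, α n * u n ^ (2 * m + 1) * Real.exp (-(u n * t))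

/-- TASK H: the nonlinear estimate. -/
def TaskH : Prop := ∀ (lam η : ℝ), 8 ≤ lam → 0 < η → ∃ C c₀ : ℝ, 0 < C ∧ 0 < c₀ ∧ ∀ c : ℝ, 0 < c → c ≤ c₀ →
  ∀ B : ℕ → Finset ℕ, (∀ j, ∀ p ∈ B j, 1 ≤ j ∧ p.Prime ∧ |uu c lam p - xx j| ≤ 1 / 2) →
    (∀ j, 1 ≤ j → (B j).Nonempty ∧ ∀ p ∈ B j, η * p ≤ (B j).card * xx j * Real.log p) →
  ∀ b β : ℕ → ℝ, (∀ j, 0 ≤ b j) → (∀ j, ∀ p ∈ B j, β p = b j / (B j).card) →
    (∀ p, (∀ j, p ∉ B j) → β p = 0) →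
  ∀ E : ℝ, E ≤ 1 → (∀ J, ∑ j ∈ range J, WW c j * b j ^ 2 ≤ E) →
  ∀ (S : Finset ℕ), (∀ n ∈ S, Squarefree n ∧ 2 ≤ n.primeFactors.card) → ∀ Y : ℕ,
    ∑ y ∈ range Y, WW c y * (∑ n ∈ S.filter (fun n => cell (uu c lam n) = y), ∏ p ∈ n.primeFactors, β p) ^ 2 ≤ C * E ^ 2

end Pool.Agent.H469R10.HO

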