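import Mathlib
import Pool.Agent.H469R10.HO.Stmts2

set_option autoImplicit false

open Finset

namespace Pool.Agent.H469R10.HO

/-- the exponent `lam = 2m + 2 - 1/3`; the degree is `2 lam = 4m + 4 - 2/3` -/
noncomputable def lamOf (m : ℕ) : ℝ := 2 * m + 2 - 1 / 3

/-- CORE (output of the nonlinear contraction, proved by helper469 from tasks A-E, H). -/
def Core : Prop := ∃ (m : ℕ) (c : ℝ) (β α : ℕ → ℝ) (σ : ℝ), 1 ≤ m ∧ 0 < c ∧ (σ = 1 ∨ σ = -1) ∧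
  (∀ p : ℕ, p.Prime → |β p| ≤ (p : ℝ) ^ (-(1 / 2 + m / lamOf m))) ∧
  (∀ n : ℕ, 1 ≤ n → α n = if Squarefree n then ∏ p ∈ n.primeFactors, β p else 0) ∧
  Summable (fun n => |α n|) ∧
  (∀ x : ℝ, 0 < x → ∑' n, α n * Real.cos (uu c (lamOf m) n * x) =
      σ * x ^ (2 * m) * ∑' n, α n * Real.cos (uu c (lamOf m) n / x))

/-- TASK I: the final wrapper; `Selb` is the statement of S15984. -/
def Selb : Prop :=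
    ¬ (∀ (f : ℕ → ℂ),
    (∃ n : ℕ, 0 < n ∧ f n ≠ 0) →
    (∀ ε : ℝ, 0 < ε → ∃ C : ℝ, ∀ n : ℕ, 1 ≤ n → ‖f n‖ ≤ C * (n : ℝ) ^ ε) →
    ∀ (m : ℕ) (F : ℂ → ℂ), Differentiable ℂ F →
    (∃ ρ C : ℝ, ∀ s : ℂ, ‖F s‖ ≤ C * Real.exp (‖s‖ ^ ρ)) →
    (∀ s : ℂ, 1 < s.re → F s = (s - 1) ^ m * LSeries f s) →
    ∀ (R : ℕ) (Q : ℝ) (lam : Fin R → ℝ) (mu : Fin R → ℂ) (ω : ℂ),
    0 < Q → (∀ j, 0 < lam j) → (∀ j, 0 ≤ (mu j).re) → ‖ω‖ = 1 →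
    (∀ s : ℂ, s ≠ 0 → s ≠ 1 →
      (∀ j, ∀ n : ℕ, (lam j : ℂ) * s + mu j ≠ -(n : ℂ)) →
      (∀ j, ∀ n : ℕ, (lam j : ℂ) * (1 - starRingEnd ℂ s) + mu j ≠ -(n : ℂ)) →
      F s / (s - 1) ^ m * (Q : ℂ) ^ s * ∏ j, Complex.Gamma ((lam j : ℂ) * s + mu j)
        = ω * starRingEnd ℂ
            (F (1 - starRingEnd ℂ s) / (1 - starRingEnd ℂ s - 1) ^ m
              * (Q : ℂ) ^ (1 - starRingEnd ℂ s)
              * ∏ j, Complex.Gamma ((lam j : ℂ) * (1 - starRingEnd ℂ s) + mu j))) →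
    ∀ (b : ℕ → ℂ) (θ : ℝ), θ < 1 / 2 →
    (∃ C : ℝ, ∀ p k : ℕ, p.Prime → 1 ≤ k → ‖b (p ^ k)‖ ≤ C * ((p ^ k : ℕ) : ℝ) ^ θ) →
    (∀ s : ℂ, 1 < s.re →
      HasProd (fun p : Nat.Primes =>
        Complex.exp (∑' k : ℕ, b ((p : ℕ) ^ (k + 1)) * ((p : ℕ) : ℂ) ^ (-(((k + 1 : ℕ) : ℂ) * s))))
        (LSeries f s)) →
    ∃ d : ℤ, 2 * ∑ j, lam j = (d : ℝ))

def TaskI : Prop := TaskF → TaskG → Core → Selb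

end Pool.Agent.H469R10.HO

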