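import Mathlib
import Pool.Agent.H469R10.HO.Stmts
import Pool.Agent.H469R10.HO.Stmts2

set_option autoImplicit false

open Finset

namespace Pool.Agent.H469R10.HO

/-- TASK J (interpolation between the weights `1` and `(1+j)^2`). -/
def TaskJ : Prop := ∃ C c₀ : ℝ, 0 < C ∧ 0 < c₀ ∧ ∀ c : ℝ, 0 < c → c ≤ c₀ →
  ∀ (cl : ℕ → ℕ) (T : ℕ → ℕ → ℝ) (κ : ℝ), 0 ≤ κ →
  (∀ (S : Finset ℕ) (β : ℕ → ℝ) (J : ℕ), ∑ j ∈ range J, (∑ n ∈ S, β n * T n j) ^ 2 ≤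
    κ * ∑ y ∈ S.image cl, (∑ n ∈ S.filter (fun n => cl n = y), |β n|) ^ 2) →
  (∀ (S : Finset ℕ) (β : ℕ → ℝ) (J : ℕ), ∑ j ∈ range J, (1 + (j : ℝ)) ^ 2 * (∑ n ∈ S, β n * T n j) ^ 2 ≤
    κ * ∑ y ∈ S.image cl, (1 + (y : ℝ)) ^ 2 * (∑ n ∈ S.filter (fun n => cl n = y), |β n|) ^ 2) →
  ∀ (S : Finset ℕ) (β : ℕ → ℝ) (J : ℕ), ∑ j ∈ range J, WW c j * (∑ n ∈ S, β n * T n j) ^ 2 ≤
    C * κ * ∑ y ∈ S.image cl, WW c y * (∑ n ∈ S.filter (fun n => cl n = y), |β n|) ^ 2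

/-- TASK K (blocks of primes near the nodes). -/
def TaskK : Prop := Hoheisel → ∃ lam₀ : ℝ, ∀ lam : ℝ, lam₀ ≤ lam → ∀ e : ℝ, 0 < e → e ≤ 1 / 2 →
  ∃ η c₀ : ℝ, 0 < η ∧ 0 < c₀ ∧ ∀ c : ℝ, 0 < c → c ≤ c₀ →
    ∃ B : ℕ → Finset ℕ, (∀ j, ∀ p ∈ B j, 1 ≤ j ∧ p.Prime ∧ |uu c lam p - xx j| ≤ e) ∧
      (∀ j, 1 ≤ j → (B j).Nonempty ∧ ∀ p ∈ B j, η * p ≤ (B j).card * xx j * Real.log p)

/-- TASK L (completeness of the cosine system on `[0,2]`). -/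
def TaskL : Prop := ∀ f : ℝ → ℝ, Continuous f →
  (∀ j : ℕ, ∫ x in (0:ℝ)..2, f x * Real.cos (xx j * x) = 0) → ∀ x ∈ Set.Icc (0:ℝ) 2, f x = 0

end Pool.Agent.H469R10.HO
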