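import Mathlib
import Pool.Agent.H469R10.HO.Stmts2

set_option autoImplicit false

open Finset MeasureTheory

namespace Pool.Agent.H469R10.HO

lemma int_cos_int (k : ℤ) : ∫ t in (0:ℝ)..2, Real.cos (Real.pi / 2 * k * t) = if k = 0 then 2 else 0 := by
  split_ifs with h
  · subst h; simp
  · have hk : (Real.pi / 2 * k : ℝ) ≠ 0 := by
      have := Real.pi_pos
      have h2 : (k : ℝ) ≠ 0 := by exact_mod_cast h
      positivity
    rw [intervalIntegral.integral_comp_mul_left (fun t => Real.cos t) hk]
    rw [integral_cos]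
    have : Real.pi / 2 * (k:ℝ) * 2 = k * Real.pi := by ring
    rw [this, Real.sin_int_mul_pi]
    simp

lemma int_cos_cos (i j : ℕ) : ∫ t in (0:ℝ)..2, Real.cos (xx i * t) * Real.cos (xx j * t) =
    if i = j then (if i = 0 then 2 else 1) else 0 := by
  have e : ∀ t : ℝ, Real.cos (xx i * t) * Real.cos (xx j * t) =
      1 / 2 * Real.cos (Real.pi / 2 * ((i - j : ℤ)) * t) + 1 / 2 * Real.cos (Real.pi / 2 * ((i + j : ℤ)) * t) := by
    intro t
    have h1 : Real.pi / 2 * (((i:ℤ) - j : ℤ) : ℝ) * t = xx i * t - xx j * t := by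
      unfold xx; push_cast; ring
    have h2 : Real.pi / 2 * (((i:ℤ) + j : ℤ) : ℝ) * t = xx i * t + xx j * t := by
      unfold xx; push_cast; ring
    rw [h1, h2, Real.cos_sub, Real.cos_add]; ring
  simp_rw [e]
  rw [intervalIntegral.integral_add (Continuous.intervalIntegrable (by fun_prop) _ _)
    (Continuous.intervalIntegrable (by fun_prop) _ _), intervalIntegral.integral_const_mul,
    intervalIntegral.integral_const_mul, int_cos_int, int_cos_int]
  by_cases hij : i = j
  · subst hij
    by_cases hi : i = 0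
    · subst hi; norm_num
    · have : ¬ ((i:ℤ) + i = 0) := by omega
      simp [hi, this]
  · have h1 : ¬ ((i:ℤ) - j = 0) := by omega
    have h2 : ¬ ((i:ℤ) + j = 0) := by omega
    simp [hij, h1, h2]

lemma int_sin_sin (i j : ℕ) : ∫ t in (0:ℝ)..2, Real.sin (xx i * t) * Real.sin (xx j * t) =
    if i = j then (if i = 0 then 0 else 1) else 0 := by
  have e : ∀ t : ℝ, Real.sin (xx i * t) * Real.sin (xx j * t) =
      1 / 2 * Real.cos (Real.pi / 2 * ((i - j : ℤ)) * t) - 1 / 2 * Real.cos (Real.pi / 2 * ((i + j : ℤ)) * t) := by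
    intro t
    have h1 : Real.pi / 2 * (((i:ℤ) - j : ℤ) : ℝ) * t = xx i * t - xx j * t := by
      unfold xx; push_cast; ring
    have h2 : Real.pi / 2 * (((i:ℤ) + j : ℤ) : ℝ) * t = xx i * t + xx j * t := by
      unfold xx; push_cast; ring
    rw [h1, h2, Real.cos_sub, Real.cos_add]; ring
  simp_rw [e]
  rw [intervalIntegral.integral_sub (Continuous.intervalIntegrable (by fun_prop) _ _)
    (Continuous.intervalIntegrable (by fun_prop) _ _), intervalIntegral.integral_const_mul,
    intervalIntegral.integral_const_mul, int_cos_int, int_cos_int]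
  by_cases hij : i = j
  · subst hij
    by_cases hi : i = 0
    · subst hi; norm_num
    · have : ¬ ((i:ℤ) + i = 0) := by omega
      simp [hi, this]
  · have h1 : ¬ ((i:ℤ) - j = 0) := by omega
    have h2 : ¬ ((i:ℤ) + j = 0) := by omega
    simp [hij, h1, h2]

noncomputable def ww (j : ℕ) : ℝ := if j = 0 then 2 else 1

lemma ww_ge (j : ℕ) : 1 ≤ ww j := by unfold ww; split_ifs <;> norm_num
lemma ww_le (j : ℕ) : ww j ≤ 2 := by unfold ww; split_ifs <;> norm_num

/-- general orthogonal expansion -/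
lemma sq_int {e : ℕ → ℝ → ℝ} {w : ℕ → ℝ} (he : ∀ j, Continuous (e j))
    (ho : ∀ i j, ∫ t in (0:ℝ)..2, e i t * e j t = if i = j then w i else 0) (J : Finset ℕ) (a : ℕ → ℝ) :
    ∫ t in (0:ℝ)..2, (∑ j ∈ J, a j * e j t) ^ 2 = ∑ j ∈ J, a j ^ 2 * w j := by
  have h1 : ∀ t, (∑ j ∈ J, a j * e j t) ^ 2 = ∑ i ∈ J, ∑ j ∈ J, (a i * a j) * (e i t * e j t) := by
    intro t
    rw [sq, sum_mul_sum]
    refine sum_congr rfl fun i _ => sum_congr rfl fun j _ => by ring
  simp_rw [h1]
  rw [intervalIntegral.integral_finsetSum]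
  · apply sum_congr rfl
    intro i hi
    rw [intervalIntegral.integral_finsetSum]
    · simp_rw [intervalIntegral.integral_const_mul, ho]
      rw [sum_eq_single i]
      · rw [if_pos rfl]; ring
      · intro j _ hj
        simp [hj.symm]
      · intro h; exact absurd hi h
    · intro j _
      exact Continuous.intervalIntegrable (by have := he i; have := he j; fun_prop) _ _
  · intro i _
    exact Continuous.intervalIntegrable (by
      refine continuous_finsetSum _ fun j _ => ?_
      have := he i; have := he j; fun_prop) _ _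

lemma bessel_gen {e : ℕ → ℝ → ℝ} {w : ℕ → ℝ} (he : ∀ j, Continuous (e j))
    (ho : ∀ i j, ∫ t in (0:ℝ)..2, e i t * e j t = if i = j then w i else 0)
    {f : ℝ → ℝ} (hf : Continuous f) (J : Finset ℕ) (a : ℕ → ℝ)
    (ha : ∀ j ∈ J, ∫ t in (0:ℝ)..2, f t * e j t = a j * w j) :
    ∑ j ∈ J, a j ^ 2 * w j ≤ ∫ t in (0:ℝ)..2, f t ^ 2 := by
  have h0 : 0 ≤ ∫ t in (0:ℝ)..2, (f t - ∑ j ∈ J, a j * e j t) ^ 2 := by
    apply intervalIntegral.integral_nonneg (by norm_num)
    intro t _; positivity
  have hg : Continuous fun t => ∑ j ∈ J, a j * e j t :=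
    continuous_finsetSum _ fun j _ => by have := he j; fun_prop
  have h1 : ∀ t, (f t - ∑ j ∈ J, a j * e j t) ^ 2 =
      f t ^ 2 - 2 * (f t * ∑ j ∈ J, a j * e j t) + (∑ j ∈ J, a j * e j t) ^ 2 := by
    intro t; ring
  simp_rw [h1] at h0
  rw [intervalIntegral.integral_add (Continuous.intervalIntegrable (by fun_prop) _ _)
    (Continuous.intervalIntegrable (by fun_prop) _ _), intervalIntegral.integral_sub
    (Continuous.intervalIntegrable (by fun_prop) _ _)
    (Continuous.intervalIntegrable (by fun_prop) _ _), intervalIntegral.integral_const_mul, sq_int he ho] at h0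
  have h2 : ∫ t in (0:ℝ)..2, f t * ∑ j ∈ J, a j * e j t = ∑ j ∈ J, a j ^ 2 * w j := by
    simp_rw [mul_sum]
    rw [intervalIntegral.integral_finsetSum]
    · apply sum_congr rfl
      intro j hj
      have : ∀ t, f t * (a j * e j t) = a j * (f t * e j t) := fun t => by ring
      simp_rw [this]
      rw [intervalIntegral.integral_const_mul, ha j hj]; ring
    · intro j _
      exact Continuous.intervalIntegrable (by have := he j; fun_prop) _ _
  rw [h2] at h0
  linarith

noncomputable def PP (f : ℝ → ℝ) (j : ℕ) : ℝ := (∫ x in (0:ℝ)..2, f x * Real.cos (xx j * x)) / ww j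

lemma xx_sin_two (j : ℕ) : Real.sin (xx j * 2) = 0 := by
  unfold xx
  have : Real.pi / 2 * (j:ℝ) * 2 = j * Real.pi := by ring
  rw [this, Real.sin_nat_mul_pi]

lemma bessel {f : ℝ → ℝ} (hf : Continuous f) (J : Finset ℕ) :
    ∑ j ∈ J, PP f j ^ 2 ≤ ∫ t in (0:ℝ)..2, f t ^ 2 := by
  have h := bessel_gen (e := fun j t => Real.cos (xx j * t)) (w := ww) (fun j => by fun_prop)
    (fun i j => by rw [int_cos_cos]; unfold ww; rfl) hf J (PP f) (fun j _ => by
      unfold PP
      have := ww_ge j
      field_simp)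
  refine le_trans ?_ h
  apply sum_le_sum
  intro j _
  have := ww_ge j
  nlinarith [sq_nonneg (PP f j)]

lemma PP_deriv {f f' : ℝ → ℝ} (hd : ∀ x, HasDerivAt f (f' x) x) (hf' : Continuous f') (j : ℕ) :
    ∫ x in (0:ℝ)..2, f' x * Real.sin (xx j * x) = -(xx j * ∫ x in (0:ℝ)..2, f x * Real.cos (xx j * x)) := by
  have hf : Continuous f := continuous_iff_continuousAt.2 fun x => (hd x).continuousAt
  have h := intervalIntegral.integral_deriv_mul_eq_sub (a := (0:ℝ)) (b := 2)
    (u := f) (v := fun x => Real.sin (xx j * x)) (u' := f') (v' := fun x => xx j * Real.cos (xx j * x))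
    (fun x _ => hd x) (fun x _ => by
      have := ((hasDerivAt_id x).const_mul (xx j)).sin
      simp only [id, mul_one] at this
      rwa [mul_comm] at this) (hf'.intervalIntegrable _ _) (Continuous.intervalIntegrable (by fun_prop) _ _)
  rw [intervalIntegral.integral_add (Continuous.intervalIntegrable (by fun_prop) _ _)
    (Continuous.intervalIntegrable (by fun_prop) _ _)] at h
  have h2 : ∫ x in (0:ℝ)..2, f x * (xx j * Real.cos (xx j * x)) = xx j * ∫ x in (0:ℝ)..2, f x * Real.cos (xx j * x) := by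
    rw [← intervalIntegral.integral_const_mul]
    congr 1; ext x; ring
  rw [h2, xx_sin_two] at h
  simp at h
  linarith

lemma bessel_deriv {f f' : ℝ → ℝ} (hd : ∀ x, HasDerivAt f (f' x) x) (hf' : Continuous f') (J : Finset ℕ) :
    ∑ j ∈ J, (xx j) ^ 2 * PP f j ^ 2 ≤ ∫ t in (0:ℝ)..2, f' t ^ 2 := by
  have h := bessel_gen (e := fun j t => Real.sin (xx j * t)) (w := fun j => if j = 0 then 0 else 1)
    (fun j => by fun_prop)
    (fun i j => by rw [int_sin_sin]) hf' J (fun j => -(xx j * PP f j)) (fun j _ => by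
      rw [PP_deriv hd hf']
      unfold PP ww
      split_ifs with h0
      · subst h0; simp [xx]
      · simp)
  refine le_trans ?_ h
  apply sum_le_sum
  intro j _
  split_ifs with h0
  · subst h0; simp [xx]
  · rw [mul_one]; nlinarith

end Pool.Agent.H469R10.HO
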