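import Mathlib
import Pool.Agent.H469R10.HO.N1

set_option autoImplicit false

open Finset MeasureTheory

namespace Pool.Agent.H469R10.HO

variable {ι : Type*}

/-- cell norm of a family -/
noncomputable def QQ (w : ℕ → ℝ) (S : Finset ι) (cl : ι → ℕ) (β : ι → ℝ) : ℝ :=
  ∑ y ∈ S.image cl, w y * (∑ i ∈ S.filter (fun i => cl i = y), |β i|) ^ 2

lemma QQ_nonneg {w : ℕ → ℝ} (hw : ∀ y, 0 ≤ w y) (S : Finset ι) (cl : ι → ℕ) (β : ι → ℝ) :
    0 ≤ QQ w S cl β := by
  unfold QQ
  exact sum_nonneg fun y _ => mul_nonneg (hw y) (sq_nonneg _)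

lemma QQ_mono {w : ℕ → ℝ} (hw : ∀ y, 0 ≤ w y) (S : Finset ι) (cl : ι → ℕ) {β γ : ι → ℝ}
    {C : ℝ} (h : ∀ i ∈ S, |γ i| ≤ C * |β i|) : QQ w S cl γ ≤ C ^ 2 * QQ w S cl β := by
  unfold QQ
  rw [mul_sum]
  apply sum_le_sum
  intro y _
  have h1 : ∑ i ∈ S.filter (fun i => cl i = y), |γ i| ≤ C * ∑ i ∈ S.filter (fun i => cl i = y), |β i| := by
    rw [mul_sum]
    exact sum_le_sum fun i hi => h i (mem_filter.1 hi).1
  have h0 : 0 ≤ ∑ i ∈ S.filter (fun i => cl i = y), |γ i| := sum_nonneg fun i _ => abs_nonneg _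
  calc w y * (∑ i ∈ S.filter (fun i => cl i = y), |γ i|) ^ 2 ≤
      w y * (C * ∑ i ∈ S.filter (fun i => cl i = y), |β i|) ^ 2 :=
        mul_le_mul_of_nonneg_left (pow_le_pow_left₀ h0 h1 2) (hw y)
    _ = _ := by ring

lemma base_ineq (S : Finset ι) (cl : ι → ℕ) (β φ : ι → ℝ) :
    ∫ t in (0:ℝ)..2, (∑ i ∈ S, β i * Real.cos (xx (cl i) * t + φ i)) ^ 2 ≤ 6 * QQ (fun _ => 1) S cl β := by
  classical
  set A : ℕ → ℝ := fun y => ∑ i ∈ S.filter (fun i => cl i = y), β i * Real.cos (φ i) with hA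
  set D : ℕ → ℝ := fun y => ∑ i ∈ S.filter (fun i => cl i = y), β i * Real.sin (φ i) with hD
  have h1 : ∀ t, ∑ i ∈ S, β i * Real.cos (xx (cl i) * t + φ i) =
      ∑ y ∈ S.image cl, A y * Real.cos (xx y * t) - ∑ y ∈ S.image cl, D y * Real.sin (xx y * t) := by
    intro t
    rw [← sum_sub_distrib, ← sum_fiberwise_of_maps_to (g := cl) (t := S.image cl) (fun i hi => mem_image_of_mem _ hi)]
    apply sum_congr rfl
    intro y _
    rw [hA, hD]
    simp only
    rw [sum_mul, sum_mul, ← sum_sub_distrib]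
    apply sum_congr rfl
    intro i hi
    rw [(mem_filter.1 hi).2, Real.cos_add]
    ring
  have hc1 : Continuous fun t => ∑ y ∈ S.image cl, A y * Real.cos (xx y * t) :=
    continuous_finsetSum _ fun j _ => by fun_prop
  have hc2 : Continuous fun t => ∑ y ∈ S.image cl, D y * Real.sin (xx y * t) :=
    continuous_finsetSum _ fun j _ => by fun_prop
  have h2 : ∫ t in (0:ℝ)..2, (∑ i ∈ S, β i * Real.cos (xx (cl i) * t + φ i)) ^ 2 ≤
      ∫ t in (0:ℝ)..2, (2 * (∑ y ∈ S.image cl, A y * Real.cos (xx y * t)) ^ 2 +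
        2 * (∑ y ∈ S.image cl, D y * Real.sin (xx y * t)) ^ 2) := by
    simp_rw [h1]
    apply intervalIntegral.integral_mono_on (by norm_num)
      (Continuous.intervalIntegrable (by fun_prop) _ _) (Continuous.intervalIntegrable (by fun_prop) _ _)
    intro t _
    nlinarith [sq_nonneg (∑ y ∈ S.image cl, A y * Real.cos (xx y * t) + ∑ y ∈ S.image cl, D y * Real.sin (xx y * t))]
  refine h2.trans ?_
  rw [intervalIntegral.integral_add (Continuous.intervalIntegrable (by fun_prop) _ _)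
    (Continuous.intervalIntegrable (by fun_prop) _ _), intervalIntegral.integral_const_mul,
    intervalIntegral.integral_const_mul,
    sq_int (e := fun j t => Real.cos (xx j * t)) (w := ww) (fun j => by fun_prop)
    (fun i j => by rw [int_cos_cos]; unfold ww; rfl),
    sq_int (e := fun j t => Real.sin (xx j * t)) (w := fun j => if j = 0 then 0 else 1)
    (fun j => by fun_prop) (fun i j => by rw [int_sin_sin])]
  unfold QQ
  rw [mul_sum, mul_sum, mul_sum, ← sum_add_distrib]
  apply sum_le_sum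
  intro y _
  have hb : 0 ≤ ∑ i ∈ S.filter (fun i => cl i = y), |β i| := sum_nonneg fun i _ => abs_nonneg _
  have hAy : |A y| ≤ ∑ i ∈ S.filter (fun i => cl i = y), |β i| := by
    rw [hA]
    refine (abs_sum_le_sum_abs _ _).trans (sum_le_sum fun i _ => ?_)
    rw [abs_mul]
    exact mul_le_of_le_one_right (abs_nonneg _) (Real.abs_cos_le_one _)
  have hDy : |D y| ≤ ∑ i ∈ S.filter (fun i => cl i = y), |β i| := by
    rw [hD]
    refine (abs_sum_le_sum_abs _ _).trans (sum_le_sum fun i _ => ?_)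
    rw [abs_mul]
    exact mul_le_of_le_one_right (abs_nonneg _) (Real.abs_sin_le_one _)
  have hA2 : A y ^ 2 ≤ (∑ i ∈ S.filter (fun i => cl i = y), |β i|) ^ 2 := sq_le_sq' (abs_le.1 hAy).1 (abs_le.1 hAy).2
  have hD2 : D y ^ 2 ≤ (∑ i ∈ S.filter (fun i => cl i = y), |β i|) ^ 2 := sq_le_sq' (abs_le.1 hDy).1 (abs_le.1 hDy).2
  have hw1 := ww_le y
  have hw2 := ww_ge y
  have h3 : A y ^ 2 * ww y ≤ (∑ i ∈ S.filter (fun i => cl i = y), |β i|) ^ 2 * 2 :=
    mul_le_mul hA2 hw1 (by linarith) (sq_nonneg _)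
  have h4 : D y ^ 2 * (if y = 0 then 0 else 1) ≤ (∑ i ∈ S.filter (fun i => cl i = y), |β i|) ^ 2 := by
    split_ifs
    · rw [mul_zero]; positivity
    · rw [mul_one]; exact hD2
  linarith

lemma sq_integral_le {g : ℝ → ℝ} (hg : Continuous g) {t : ℝ} (h0 : 0 ≤ t) (h2 : t ≤ 2) :
    (∫ s in (0:ℝ)..t, g s) ^ 2 ≤ 2 * ∫ s in (0:ℝ)..2, g s ^ 2 := by
  have hmono : ∫ s in (0:ℝ)..t, g s ^ 2 ≤ ∫ s in (0:ℝ)..2, g s ^ 2 := by
    apply intervalIntegral.integral_mono_interval le_rfl h0 h2
    · filter_upwards with s; exact sq_nonneg _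
    · exact Continuous.intervalIntegrable (by fun_prop) _ _
  rcases h0.eq_or_lt with rfl | h0
  · simp only [intervalIntegral.integral_same] at hmono ⊢
    simp; exact hmono
  · set I := ∫ s in (0:ℝ)..t, g s with hI
    have h := intervalIntegral.integral_nonneg (μ := volume) h0.le (f := fun s => (g s - I / t) ^ 2)
      (fun s _ => sq_nonneg _)
    have e : ∀ s, (g s - I / t) ^ 2 = g s ^ 2 - (2 * (I / t)) * g s + (I / t) ^ 2 := fun s => by ring
    simp_rw [e] at h
    rw [intervalIntegral.integral_add (Continuous.intervalIntegrable (by fun_prop) _ _)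
      (Continuous.intervalIntegrable (by fun_prop) _ _), intervalIntegral.integral_sub
      (Continuous.intervalIntegrable (by fun_prop) _ _) (Continuous.intervalIntegrable (by fun_prop) _ _),
      intervalIntegral.integral_const_mul, intervalIntegral.integral_const, ← hI] at h
    simp only [sub_zero, smul_eq_mul] at h
    have h3 : 0 ≤ (∫ s in (0:ℝ)..t, g s ^ 2) - I ^ 2 / t := by
      have : (∫ s in (0:ℝ)..t, g s ^ 2) - 2 * (I / t) * I + t * (I / t) ^ 2 =
        (∫ s in (0:ℝ)..t, g s ^ 2) - I ^ 2 / t := by field_simp; ring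
      linarith
    have h4 : I ^ 2 ≤ t * ∫ s in (0:ℝ)..t, g s ^ 2 := by
      have : I ^ 2 / t ≤ ∫ s in (0:ℝ)..t, g s ^ 2 := by linarith
      rw [div_le_iff₀ h0] at this
      linarith
    have h5 : 0 ≤ ∫ s in (0:ℝ)..t, g s ^ 2 := intervalIntegral.integral_nonneg h0.le fun s _ => sq_nonneg _
    nlinarith

lemma swap_int {f : ℝ → ℝ → ℝ} (hf : Continuous (Function.uncurry f)) :
    ∫ t in (0:ℝ)..2, ∫ s in (0:ℝ)..2, f s t = ∫ s in (0:ℝ)..2, ∫ t in (0:ℝ)..2, f s t := by
  simp_rw [intervalIntegral.integral_of_le (by norm_num : (0:ℝ) ≤ 2)]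
  refine (MeasureTheory.integral_integral_swap ?_).symm
  rw [Measure.prod_restrict]
  have : IntegrableOn (Function.uncurry f) (Set.Icc (0:ℝ) 2 ×ˢ Set.Icc (0:ℝ) 2) (volume.prod volume) :=
    hf.continuousOn.integrableOn_compact (isCompact_Icc.prod isCompact_Icc)
  exact this.mono_set (Set.prod_mono Set.Ioc_subset_Icc_self Set.Ioc_subset_Icc_self)

lemma cell_diff (S : Finset ι) (cl : ι → ℕ) (β φ δ : ι → ℝ) {e : ℝ} (he : ∀ i ∈ S, |δ i| ≤ e) :
    ∫ t in (0:ℝ)..2, (∑ i ∈ S, β i * (Real.cos ((xx (cl i) + δ i) * t + φ i) - Real.cos (xx (cl i) * t + φ i))) ^ 2 ≤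
      24 * e ^ 2 * QQ (fun _ => 1) S cl β := by
  set g : ℝ → ℝ → ℝ := fun s t => ∑ i ∈ S, (β i * δ i) * Real.cos (xx (cl i) * t + (δ i * s + φ i + Real.pi / 2)) with hg
  have hgc : Continuous (Function.uncurry g) := by
    show Continuous fun x : ℝ × ℝ => ∑ i ∈ S, (β i * δ i) * Real.cos (xx (cl i) * x.2 + (δ i * x.1 + φ i + Real.pi / 2))
    refine continuous_finsetSum _ fun i _ => ?_
    have h0 : Continuous fun x : ℝ × ℝ => xx (cl i) * x.2 + (δ i * x.1 + φ i + Real.pi / 2) :=
      ((continuous_const.mul continuous_snd).add (((continuous_const.mul continuous_fst).add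
      continuous_const).add continuous_const))
    exact continuous_const.mul (Real.continuous_cos.comp h0)
  have hgs : ∀ t, Continuous fun s => g s t := fun t => by
    refine continuous_finsetSum _ fun i _ => continuous_const.mul (Real.continuous_cos.comp ?_)
    exact (continuous_const.add (((continuous_const.mul continuous_id).add
      continuous_const).add continuous_const))
  have hgc2 : Continuous (Function.uncurry fun s t => g s t ^ 2) := hgc.pow 2
  have h1 : ∀ t, ∑ i ∈ S, β i * (Real.cos ((xx (cl i) + δ i) * t + φ i) - Real.cos (xx (cl i) * t + φ i)) =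
      ∫ s in (0:ℝ)..t, g s t := by
    intro t
    have hd : ∀ s : ℝ, HasDerivAt (fun s => ∑ i ∈ S, β i * Real.cos (xx (cl i) * t + (δ i * s + φ i))) (g s t) s := by
      intro s
      rw [hg]
      refine HasDerivAt.fun_sum fun i _ => ?_
      have h := (((((hasDerivAt_id s).const_mul (δ i)).add_const (φ i)).const_add (xx (cl i) * t)).cos).const_mul (β i)
      simp only [id, mul_one] at h
      have e2 : β i * δ i * Real.cos (xx (cl i) * t + (δ i * s + φ i + Real.pi / 2)) =
          β i * (-Real.sin (xx (cl i) * t + (δ i * s + φ i)) * δ i) := by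
        rw [← add_assoc, Real.cos_add_pi_div_two]
        ring
      rw [e2]
      exact h
    rw [intervalIntegral.integral_eq_sub_of_hasDerivAt (fun s _ => hd s) ((hgs t).intervalIntegrable _ _),
      ← sum_sub_distrib]
    apply sum_congr rfl
    intro i _
    rw [mul_sub]
    congr 2
    · congr 1; ring
    · congr 1; ring
  simp_rw [h1]
  have hcont2 : Continuous fun t => ∫ s in (0:ℝ)..2, g s t ^ 2 := by
    apply intervalIntegral.continuous_parametric_intervalIntegral_of_continuous'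
    show Continuous fun x : ℝ × ℝ => g x.2 x.1 ^ 2
    exact (hgc.comp (by fun_prop : Continuous fun x : ℝ × ℝ => (x.2, x.1))).pow 2
  have hcont1 : Continuous fun t => (∫ s in (0:ℝ)..t, g s t) ^ 2 := by
    have : (fun t => (∫ s in (0:ℝ)..t, g s t)) = fun t => ∑ i ∈ S, β i * (Real.cos ((xx (cl i) + δ i) * t + φ i) - Real.cos (xx (cl i) * t + φ i)) := by
      funext t; exact (h1 t).symm
    have h2 : Continuous fun t => (∫ s in (0:ℝ)..t, g s t) := by
      rw [this]; exact continuous_finsetSum _ fun i _ => by fun_prop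
    exact h2.pow 2
  have h2 : ∫ t in (0:ℝ)..2, (∫ s in (0:ℝ)..t, g s t) ^ 2 ≤ ∫ t in (0:ℝ)..2, 2 * ∫ s in (0:ℝ)..2, g s t ^ 2 := by
    apply intervalIntegral.integral_mono_on (by norm_num) (hcont1.intervalIntegrable _ _)
      ((hcont2.const_mul 2).intervalIntegrable _ _)
    intro t ht
    exact sq_integral_le (hgs t) ht.1 ht.2
  refine h2.trans ?_
  rw [intervalIntegral.integral_const_mul, swap_int (f := fun s t => g s t ^ 2) hgc2]
  have h3 : ∀ s : ℝ, ∫ t in (0:ℝ)..2, g s t ^ 2 ≤ 6 * (e ^ 2 * QQ (fun _ => 1) S cl β) := by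
    intro s
    refine (base_ineq S cl (fun i => β i * δ i) (fun i => δ i * s + φ i + Real.pi / 2)).trans ?_
    have := QQ_mono (w := fun _ => 1) (fun _ => zero_le_one) S cl (β := β) (γ := fun i => β i * δ i) (C := e)
      (fun i hi => by rw [abs_mul, mul_comm]; exact mul_le_mul_of_nonneg_right (he i hi) (abs_nonneg _))
    linarith
  have h4 : ∫ s in (0:ℝ)..2, ∫ t in (0:ℝ)..2, g s t ^ 2 ≤ ∫ s in (0:ℝ)..2, 6 * (e ^ 2 * QQ (fun _ => 1) S cl β) := by
    apply intervalIntegral.integral_mono_on (by norm_num) _ (by simp)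
    · intro s _; exact h3 s
    · apply Continuous.intervalIntegrable
      apply intervalIntegral.continuous_parametric_intervalIntegral_of_continuous'
      show Continuous fun x : ℝ × ℝ => g x.1 x.2 ^ 2
      exact hgc.pow 2
  simp only [intervalIntegral.integral_const, smul_eq_mul, sub_zero] at h4
  linarith

lemma cell_ineq (S : Finset ι) (cl : ι → ℕ) (β φ δ : ι → ℝ) (he : ∀ i ∈ S, |δ i| ≤ 1) :
    ∫ t in (0:ℝ)..2, (∑ i ∈ S, β i * Real.cos ((xx (cl i) + δ i) * t + φ i)) ^ 2 ≤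
      60 * QQ (fun _ => 1) S cl β := by
  have h1 := cell_diff S cl β φ δ he
  have h2 := base_ineq S cl β φ
  have hc1 : Continuous fun t => ∑ i ∈ S, β i * (Real.cos ((xx (cl i) + δ i) * t + φ i) - Real.cos (xx (cl i) * t + φ i)) :=
    continuous_finsetSum _ fun j _ => by fun_prop
  have hc2 : Continuous fun t => ∑ i ∈ S, β i * Real.cos (xx (cl i) * t + φ i) :=
    continuous_finsetSum _ fun j _ => by fun_prop
  have hc3 : Continuous fun t => ∑ i ∈ S, β i * Real.cos ((xx (cl i) + δ i) * t + φ i) :=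
    continuous_finsetSum _ fun j _ => by fun_prop
  have h3 : ∫ t in (0:ℝ)..2, (∑ i ∈ S, β i * Real.cos ((xx (cl i) + δ i) * t + φ i)) ^ 2 ≤
      ∫ t in (0:ℝ)..2, (2 * (∑ i ∈ S, β i * (Real.cos ((xx (cl i) + δ i) * t + φ i) - Real.cos (xx (cl i) * t + φ i))) ^ 2 +
        2 * (∑ i ∈ S, β i * Real.cos (xx (cl i) * t + φ i)) ^ 2) := by
    apply intervalIntegral.integral_mono_on (by norm_num)
      (Continuous.intervalIntegrable (by fun_prop) _ _) (Continuous.intervalIntegrable (by fun_prop) _ _)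
    intro t _
    have e : ∑ i ∈ S, β i * Real.cos ((xx (cl i) + δ i) * t + φ i) =
      ∑ i ∈ S, β i * (Real.cos ((xx (cl i) + δ i) * t + φ i) - Real.cos (xx (cl i) * t + φ i)) +
      ∑ i ∈ S, β i * Real.cos (xx (cl i) * t + φ i) := by
      rw [← sum_add_distrib]; exact sum_congr rfl fun i _ => by ring
    rw [e]
    nlinarith [sq_nonneg (∑ i ∈ S, β i * (Real.cos ((xx (cl i) + δ i) * t + φ i) - Real.cos (xx (cl i) * t + φ i)) -
      ∑ i ∈ S, β i * Real.cos (xx (cl i) * t + φ i))]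
  rw [intervalIntegral.integral_add (Continuous.intervalIntegrable (by fun_prop) _ _)
    (Continuous.intervalIntegrable (by fun_prop) _ _), intervalIntegral.integral_const_mul,
    intervalIntegral.integral_const_mul] at h3
  have := QQ_nonneg (w := fun _ => 1) (fun _ => zero_le_one) S cl β
  linarith

end Pool.Agent.H469R10.HO
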