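import Mathlib
import Pool.Agent.H469R10.HO.N2

set_option autoImplicit false

open Finset

namespace Pool.Agent.H469R10.HO

/-- smooth cutoff: `1` for `x ≤ 1/2`, `0` for `x ≥ 3/4` -/
noncomputable def chi (x : ℝ) : ℝ := Real.smoothTransition (3 - 4 * x)

/-- the dual operator -/
noncomputable def DD (m : ℕ) (f : ℝ → ℝ) (x : ℝ) : ℝ := chi x * x ^ (2 * m) * f x⁻¹

/-- TASK M (bounds for the dual operator). -/
def TaskM : Prop := ∀ κ : ℝ, 0 < κ → ∃ m₀ : ℕ, ∀ m : ℕ, m₀ ≤ m → ∀ (S : Finset ℕ) (cl : ℕ → ℕ) (ω β : ℕ → ℝ),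
  (∀ i ∈ S, |ω i - xx (cl i)| ≤ 1) →
  (∀ J : ℕ, ∑ j ∈ range J, (PP (DD m (fun y => ∑ i ∈ S, β i * Real.cos (ω i * y))) j) ^ 2 ≤
      κ * QQ (fun _ => 1) S cl β) ∧
  (∀ J : ℕ, ∑ j ∈ range J, (1 + (j : ℝ)) ^ 2 * (PP (DD m (fun y => ∑ i ∈ S, β i * Real.cos (ω i * y))) j) ^ 2 ≤
      κ * QQ (fun y => (1 + (y : ℝ)) ^ 2) S cl β)

end Pool.Agent.H469R10.HO
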