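import Mathlib
import Pool.Agent.H469R10.HO.Stmts3
import Pool.Agent.H469R10.HO.Stmts4
import Pool.Agent.H469R10.HO.Stmts5

set_option autoImplicit false

open Finset

namespace Pool.Agent.H469R10.HO

/-- cell index of `n` -/
noncomputable def jj (c lam : ℝ) (n : ℕ) : ℕ := cell (uu c lam n)

/-- prime coefficients: the block sum `b j` is spread evenly over the block `B j` -/
noncomputable def bet (c lam : ℝ) (B : ℕ → Finset ℕ) (b : ℕ → ℝ) (p : ℕ) : ℝ :=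
  if p ∈ B (jj c lam p) then b (jj c lam p) / (B (jj c lam p)).card else 0

/-- coefficients; `alp 0 = b 0` is the constant term -/
noncomputable def alp (c lam : ℝ) (B : ℕ → Finset ℕ) (b : ℕ → ℝ) (n : ℕ) : ℝ :=
  if n = 0 then b 0 else if Squarefree n then ∏ p ∈ n.primeFactors, bet c lam B b p else 0

/-- `cos (c x) - 1` -/
noncomputable def s0 (c x : ℝ) : ℝ := Real.cos (c * x) - 1

/-- the column of `n` (zero for `n = 1` and for non squarefree `n`, which do not occur) -/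
noncomputable def TT (c lam : ℝ) (m n j : ℕ) : ℝ :=
  if n = 0 ∨ n.Prime then
    - PP (fun t => Real.cos (uu c lam n * t) - Real.cos (xx (jj c lam n) * t)) j
      + PP (DD m (fun y => Real.cos (uu c lam n * y))) j
  else if Squarefree n ∧ 2 ≤ n.primeFactors.card then
    - PP (fun t => Real.cos (uu c lam n * t)) j + PP (DD m (fun y => Real.cos (uu c lam n * y))) j
  else 0

/-- source -/
noncomputable def ss (c : ℝ) (m j : ℕ) : ℝ := - PP (s0 c) j + PP (DD m (s0 c)) j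

/-- the nonlinear map -/
noncomputable def Phi (c lam : ℝ) (B : ℕ → Finset ℕ) (m : ℕ) (b : ℕ → ℝ) (j : ℕ) : ℝ :=
  ss c m j + ∑' n, alp c lam B b n * TT c lam m n j

/-- TASK N: size of the source. -/
def TaskN : Prop := ∀ m : ℕ, 2 ≤ m → ∀ ρ : ℝ, 0 < ρ → ∃ c₀ : ℝ, 0 < c₀ ∧ ∀ c : ℝ, 0 < c → c ≤ c₀ →
  ∀ J : ℕ, ∑ j ∈ range J, WW c j * (ss c m j) ^ 2 ≤ ρ

/-- TASK O: a fixed point gives the boundary relation. -/
def TaskO : Prop := ∀ (c lam : ℝ) (m : ℕ) (B : ℕ → Finset ℕ) (b : ℕ → ℝ), 0 < c → 1 ≤ lam → 2 ≤ m →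
  (∀ j, ∀ p ∈ B j, 1 ≤ j ∧ p.Prime ∧ |uu c lam p - xx j| ≤ 1 / 2) → (∀ j, 1 ≤ j → (B j).Nonempty) →
  Summable (fun n => |alp c lam B b n|) → (∀ j, b j = Phi c lam B m b j) →
  ∀ α : ℕ → ℝ, (∀ n, α n = if n = 0 then b 0 - 1 else if Squarefree n then ∏ p ∈ n.primeFactors, bet c lam B b p else 0) →
  ∀ x : ℝ, 0 < x → ∑' n, α n * Real.cos (uu c lam n * x) = x ^ (2 * m) * ∑' n, α n * Real.cos (uu c lam n / x)

/-- TASK P: size of the prime coefficients. -/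
def TaskP : Prop := ∀ (m : ℕ), 1 ≤ m → ∀ η : ℝ, 0 < η → ∃ c₀ : ℝ, 0 < c₀ ∧ ∀ c : ℝ, 0 < c → c ≤ c₀ →
  ∀ (B : ℕ → Finset ℕ), (∀ j, ∀ p ∈ B j, 1 ≤ j ∧ p.Prime ∧ |uu c (lamOf m) p - xx j| ≤ 1 / 2) →
    (∀ j, 1 ≤ j → (B j).Nonempty ∧ ∀ p ∈ B j, η * p ≤ (B j).card * xx j * Real.log p) →
  ∀ b : ℕ → ℝ, (∀ j, WW c j * b j ^ 2 ≤ 1) → ∀ p : ℕ, p.Prime →
    |bet c (lamOf m) B b p| ≤ (p : ℝ) ^ (-(1 / 2 + m / lamOf m)) * (p : ℝ) ^ (-(1 / (6 * lamOf m)))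

end Pool.Agent.H469R10.HO
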