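import Mathlib
import Pool.Agent.H469R10.HO.Stmts6

set_option autoImplicit false

open Finset MeasureTheory

namespace Pool.Agent.H469R10.HO

variable {ι : Type*}

lemma PP_sum (S : Finset ι) (β : ι → ℝ) (f : ι → ℝ → ℝ) (hf : ∀ i ∈ S, Continuous (f i)) (j : ℕ) :
    PP (fun t => ∑ i ∈ S, β i * f i t) j = ∑ i ∈ S, β i * PP (f i) j := by
  unfold PP
  rw [show (∑ i ∈ S, β i * ((∫ x in (0:ℝ)..2, f i x * Real.cos (xx j * x)) / ww j)) =
    (∑ i ∈ S, β i * (∫ x in (0:ℝ)..2, f i x * Real.cos (xx j * x))) / ww j by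
      rw [sum_div]; exact sum_congr rfl fun i _ => by ring]
  congr 1
  have e : ∀ x, (∑ i ∈ S, β i * f i x) * Real.cos (xx j * x) = ∑ i ∈ S, β i * (f i x * Real.cos (xx j * x)) := by
    intro x; rw [sum_mul]; exact sum_congr rfl fun i _ => by ring
  simp_rw [e]
  rw [intervalIntegral.integral_finsetSum]
  · exact sum_congr rfl fun i _ => intervalIntegral.integral_const_mul _ _
  · intro i hi
    exact Continuous.intervalIntegrable (by have := hf i hi; fun_prop) _ _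

lemma QQ_subset {w : ℕ → ℝ} (hw : ∀ y, 0 ≤ w y) {S S' : Finset ι} (h : S' ⊆ S) (cl : ι → ℕ) (β : ι → ℝ) :
    QQ w S' cl β ≤ QQ w S cl β := by
  classical
  unfold QQ
  refine le_trans ?_ (sum_le_sum_of_subset_of_nonneg (image_subset_image h) fun y _ _ =>
    mul_nonneg (hw y) (sq_nonneg _))
  apply sum_le_sum
  intro y _
  apply mul_le_mul_of_nonneg_left _ (hw y)
  apply pow_le_pow_left₀ (sum_nonneg fun i _ => abs_nonneg _)
  exact sum_le_sum_of_subset_of_nonneg (filter_subset_filter _ h) fun i _ _ => abs_nonneg _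

lemma QQ_mul {S : Finset ι} (cl : ι → ℕ) (β g : ι → ℝ) {C : ℝ} (_hC : 0 ≤ C)
    (hg : ∀ i ∈ S, |g i| ≤ C * (1 + cl i)) :
    QQ (fun _ => 1) S cl (fun i => β i * g i) ≤ C ^ 2 * QQ (fun y => (1 + (y : ℝ)) ^ 2) S cl β := by
  unfold QQ
  rw [mul_sum]
  apply sum_le_sum
  intro y _
  have h1 : ∑ i ∈ S.filter (fun i => cl i = y), |β i * g i| ≤ C * (1 + y) * ∑ i ∈ S.filter (fun i => cl i = y), |β i| := by
    rw [mul_sum]
    refine sum_le_sum fun i hi => ?_
    rw [mem_filter] at hi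
    rw [abs_mul]
    have := hg i hi.1
    rw [hi.2] at this
    rw [mul_comm]
    exact mul_le_mul_of_nonneg_right this (abs_nonneg _)
  have h0 : 0 ≤ ∑ i ∈ S.filter (fun i => cl i = y), |β i * g i| := sum_nonneg fun i _ => abs_nonneg _
  calc 1 * (∑ i ∈ S.filter (fun i => cl i = y), |β i * g i|) ^ 2 ≤
      1 * (C * (1 + y) * ∑ i ∈ S.filter (fun i => cl i = y), |β i|) ^ 2 := by gcongr
    _ = _ := by ring

lemma QQ_one_le {S : Finset ι} (cl : ι → ℕ) (β : ι → ℝ) :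
    QQ (fun _ => 1) S cl β ≤ QQ (fun y => (1 + (y : ℝ)) ^ 2) S cl β := by
  unfold QQ
  apply sum_le_sum
  intro y _
  apply mul_le_mul_of_nonneg_right _ (sq_nonneg _)
  have : (0:ℝ) ≤ y := Nat.cast_nonneg y
  nlinarith

lemma one_add_sq_le (j : ℕ) : (1 + (j : ℝ)) ^ 2 ≤ 2 + (xx j) ^ 2 := by
  have h1 : 3 < Real.pi := Real.pi_gt_three
  have h2 : (3 / 2 : ℝ) * j ≤ xx j := by
    unfold xx
    have : (0:ℝ) ≤ j := Nat.cast_nonneg j
    nlinarith
  have h3 : (0:ℝ) ≤ j := Nat.cast_nonneg j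
  have h4 : ((3 / 2 : ℝ) * j) ^ 2 ≤ (xx j) ^ 2 := pow_le_pow_left₀ (by positivity) h2 2
  nlinarith [sq_nonneg ((j:ℝ) - 1)]

lemma xx_le (j : ℕ) : xx j ≤ 2 * j := by
  unfold xx
  have := Real.pi_lt_four
  have h3 : (0:ℝ) ≤ j := Nat.cast_nonneg j
  nlinarith

lemma xx_nonneg (j : ℕ) : 0 ≤ xx j := by
  unfold xx
  positivity

/-- weighted bound from bounds of `∫ f²` and `∫ f'²` -/
lemma weighted_bessel {f f' : ℝ → ℝ} (hd : ∀ x, HasDerivAt f (f' x) x) (hf' : Continuous f') (J : Finset ℕ) :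
    ∑ j ∈ J, (1 + (j : ℝ)) ^ 2 * PP f j ^ 2 ≤ 2 * (∫ t in (0:ℝ)..2, f t ^ 2) + ∫ t in (0:ℝ)..2, f' t ^ 2 := by
  have hf : Continuous f := continuous_iff_continuousAt.2 fun x => (hd x).continuousAt
  have h1 := bessel hf J
  have h2 := bessel_deriv hd hf' J
  calc ∑ j ∈ J, (1 + (j : ℝ)) ^ 2 * PP f j ^ 2 ≤ ∑ j ∈ J, (2 * PP f j ^ 2 + (xx j) ^ 2 * PP f j ^ 2) := by
        apply sum_le_sum
        intro j _
        have := one_add_sq_le j
        nlinarith [sq_nonneg (PP f j)]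
    _ = 2 * ∑ j ∈ J, PP f j ^ 2 + ∑ j ∈ J, (xx j) ^ 2 * PP f j ^ 2 := by
        rw [sum_add_distrib, mul_sum]
    _ ≤ _ := by linarith

section cols

variable (S : Finset ι) (cl : ι → ℕ) (ω β : ι → ℝ)

lemma hd_cos (x : ℝ) : HasDerivAt (fun t => ∑ i ∈ S, β i * Real.cos (ω i * t))
    (∑ i ∈ S, (β i * ω i) * Real.cos (ω i * x + Real.pi / 2)) x := by
  refine HasDerivAt.fun_sum fun i _ => ?_
  have h := (((hasDerivAt_id x).const_mul (ω i)).cos).const_mul (β i)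
  simp only [id, mul_one] at h
  have e : β i * ω i * Real.cos (ω i * x + Real.pi / 2) = β i * (-Real.sin (ω i * x) * ω i) := by
    rw [Real.cos_add_pi_div_two]; ring
  rw [e]
  exact h

lemma om_le (h : ∀ i ∈ S, |ω i - xx (cl i)| ≤ 1) : ∀ i ∈ S, |ω i| ≤ 2 * (1 + cl i) := by
  intro i hi
  have h1 := h i hi
  have h2 := xx_le (cl i)
  have h3 := xx_nonneg (cl i)
  have h4 : |ω i| ≤ |ω i - xx (cl i)| + |xx (cl i)| := by
    have := abs_add_le (ω i - xx (cl i)) (xx (cl i))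
    simpa using this
  rw [abs_of_nonneg h3] at h4
  linarith

lemma colP_one (h : ∀ i ∈ S, |ω i - xx (cl i)| ≤ 1) (J : Finset ℕ) :
    ∑ j ∈ J, (∑ i ∈ S, β i * PP (fun t => Real.cos (ω i * t)) j) ^ 2 ≤ 60 * QQ (fun _ => 1) S cl β := by
  have h1 : ∀ j, (∑ i ∈ S, β i * PP (fun t => Real.cos (ω i * t)) j) = PP (fun t => ∑ i ∈ S, β i * Real.cos (ω i * t)) j :=
    fun j => (PP_sum S β (fun i t => Real.cos (ω i * t)) (fun i _ => by fun_prop) j).symm
  simp_rw [h1]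
  refine (bessel (continuous_finsetSum _ fun i _ => by fun_prop) J).trans ?_
  have h2 := cell_ineq S cl β (fun _ => 0) (fun i => ω i - xx (cl i)) h
  simpa using h2

lemma colP_two (h : ∀ i ∈ S, |ω i - xx (cl i)| ≤ 1) (J : Finset ℕ) :
    ∑ j ∈ J, (1 + (j : ℝ)) ^ 2 * (∑ i ∈ S, β i * PP (fun t => Real.cos (ω i * t)) j) ^ 2 ≤
      360 * QQ (fun y => (1 + (y : ℝ)) ^ 2) S cl β := by
  have h1 : ∀ j, (∑ i ∈ S, β i * PP (fun t => Real.cos (ω i * t)) j) = PP (fun t => ∑ i ∈ S, β i * Real.cos (ω i * t)) j :=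
    fun j => (PP_sum S β (fun i t => Real.cos (ω i * t)) (fun i _ => by fun_prop) j).symm
  simp_rw [h1]
  refine (weighted_bessel (hd_cos S ω β) (continuous_finsetSum _ fun i _ => by fun_prop) J).trans ?_
  have h2 := cell_ineq S cl β (fun _ => 0) (fun i => ω i - xx (cl i)) h
  have h3 := cell_ineq S cl (fun i => β i * ω i) (fun _ => Real.pi / 2) (fun i => ω i - xx (cl i)) h
  have h4 := QQ_mul (S := S) cl β ω (C := 2) (by norm_num) (om_le S cl ω h)
  have h5 := QQ_one_le (S := S) cl β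
  simp only [add_sub_cancel, add_zero] at h2 h3
  linarith

lemma colR_one {e : ℝ} (h : ∀ i ∈ S, |ω i - xx (cl i)| ≤ e) (J : Finset ℕ) :
    ∑ j ∈ J, (∑ i ∈ S, β i * PP (fun t => Real.cos (ω i * t) - Real.cos (xx (cl i) * t)) j) ^ 2 ≤
      24 * e ^ 2 * QQ (fun _ => 1) S cl β := by
  have h1 : ∀ j, (∑ i ∈ S, β i * PP (fun t => Real.cos (ω i * t) - Real.cos (xx (cl i) * t)) j) =
      PP (fun t => ∑ i ∈ S, β i * (Real.cos (ω i * t) - Real.cos (xx (cl i) * t))) j :=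
    fun j => (PP_sum S β (fun i t => Real.cos (ω i * t) - Real.cos (xx (cl i) * t)) (fun i _ => by fun_prop) j).symm
  simp_rw [h1]
  refine (bessel (continuous_finsetSum _ fun i _ => by fun_prop) J).trans ?_
  have h2 := cell_diff S cl β (fun _ => 0) (fun i => ω i - xx (cl i)) h
  simpa using h2

lemma colR_two {e : ℝ} (he0 : 0 ≤ e) (he1 : e ≤ 1) (h : ∀ i ∈ S, |ω i - xx (cl i)| ≤ e) (J : Finset ℕ) :
    ∑ j ∈ J, (1 + (j : ℝ)) ^ 2 * (∑ i ∈ S, β i * PP (fun t => Real.cos (ω i * t) - Real.cos (xx (cl i) * t)) j) ^ 2 ≤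
      400 * e ^ 2 * QQ (fun y => (1 + (y : ℝ)) ^ 2) S cl β := by
  have h1 : ∀ j, (∑ i ∈ S, β i * PP (fun t => Real.cos (ω i * t) - Real.cos (xx (cl i) * t)) j) =
      PP (fun t => ∑ i ∈ S, β i * (Real.cos (ω i * t) - Real.cos (xx (cl i) * t))) j :=
    fun j => (PP_sum S β (fun i t => Real.cos (ω i * t) - Real.cos (xx (cl i) * t)) (fun i _ => by fun_prop) j).symm
  simp_rw [h1]
  set F1 : ℝ → ℝ := fun t => ∑ i ∈ S, (β i * xx (cl i)) * (Real.cos (ω i * t + Real.pi / 2) - Real.cos (xx (cl i) * t + Real.pi / 2)) with hF1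
  set F2 : ℝ → ℝ := fun t => ∑ i ∈ S, (β i * (ω i - xx (cl i))) * Real.cos (ω i * t + Real.pi / 2) with hF2
  have hd : ∀ x, HasDerivAt (fun t => ∑ i ∈ S, β i * (Real.cos (ω i * t) - Real.cos (xx (cl i) * t))) (F1 x + F2 x) x := by
    intro x
    have a1 := hd_cos S ω β x
    have a2 := hd_cos S (fun i => xx (cl i)) β x
    have a3 := a1.sub a2
    have e1 : (fun t => ∑ i ∈ S, β i * (Real.cos (ω i * t) - Real.cos (xx (cl i) * t))) =
        (fun t => ∑ i ∈ S, β i * Real.cos (ω i * t)) - fun t => ∑ i ∈ S, β i * Real.cos (xx (cl i) * t) := by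
      funext t
      simp only [Pi.sub_apply]
      rw [← sum_sub_distrib]
      exact sum_congr rfl fun i _ => by ring
    have e2 : F1 x + F2 x = ∑ i ∈ S, (β i * ω i) * Real.cos (ω i * x + Real.pi / 2) -
        ∑ i ∈ S, (β i * xx (cl i)) * Real.cos (xx (cl i) * x + Real.pi / 2) := by
      rw [hF1, hF2, ← sum_sub_distrib, ← sum_add_distrib]
      exact sum_congr rfl fun i _ => by ring
    rw [e1, e2]
    exact a3
  have hc1 : Continuous F1 := continuous_finsetSum _ fun i _ => by fun_prop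
  have hc2 : Continuous F2 := continuous_finsetSum _ fun i _ => by fun_prop
  refine (weighted_bessel hd (hc1.add hc2) J).trans ?_
  have h2 := cell_diff S cl β (fun _ => 0) (fun i => ω i - xx (cl i)) h
  have h3 := cell_diff S cl (fun i => β i * xx (cl i)) (fun _ => Real.pi / 2) (fun i => ω i - xx (cl i)) h
  have h4 := cell_ineq S cl (fun i => β i * (ω i - xx (cl i))) (fun _ => Real.pi / 2) (fun i => ω i - xx (cl i))
    (fun i hi => (h i hi).trans he1)
  simp only [add_sub_cancel, add_zero] at h2 h3 h4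
  have h5 := QQ_mul (S := S) cl β (fun i => xx (cl i)) (C := 2) (by norm_num) (fun i _ => by
    rw [abs_of_nonneg (xx_nonneg _)]
    have := xx_le (cl i)
    linarith)
  have h6 := QQ_mul (S := S) cl β (fun i => ω i - xx (cl i)) (C := e) he0 (fun i hi => (h i hi).trans (by
    have : (0:ℝ) ≤ cl i := Nat.cast_nonneg _
    nlinarith))
  have h7 := QQ_one_le (S := S) cl β
  have h8 : ∫ t in (0:ℝ)..2, (F1 t + F2 t) ^ 2 ≤ ∫ t in (0:ℝ)..2, (2 * F1 t ^ 2 + 2 * F2 t ^ 2) := by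
    apply intervalIntegral.integral_mono_on (by norm_num)
      (Continuous.intervalIntegrable (by fun_prop) _ _) (Continuous.intervalIntegrable (by fun_prop) _ _)
    intro t _
    nlinarith [sq_nonneg (F1 t - F2 t)]
  rw [intervalIntegral.integral_add (Continuous.intervalIntegrable (by fun_prop) _ _)
    (Continuous.intervalIntegrable (by fun_prop) _ _), intervalIntegral.integral_const_mul,
    intervalIntegral.integral_const_mul] at h8
  have he2 : 0 ≤ e ^ 2 := sq_nonneg e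
  have h9 : 24 * e ^ 2 * QQ (fun _ => 1) S cl (fun i => β i * xx (cl i)) ≤
      24 * e ^ 2 * (2 ^ 2 * QQ (fun y => (1 + (y : ℝ)) ^ 2) S cl β) := mul_le_mul_of_nonneg_left h5 (by positivity)
  have h10 : 24 * e ^ 2 * QQ (fun _ => 1) S cl β ≤
      24 * e ^ 2 * (QQ (fun y => (1 + (y : ℝ)) ^ 2) S cl β) := mul_le_mul_of_nonneg_left h7 (by positivity)
  have h11 : 0 ≤ e ^ 2 * QQ (fun y => (1 + (y : ℝ)) ^ 2) S cl β :=
    mul_nonneg he2 (QQ_nonneg (fun y => by positivity) S cl β)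
  have g1 : ∫ t in (0:ℝ)..2, F1 t ^ 2 ≤ 24 * e ^ 2 * QQ (fun _ => 1) S cl (fun i => β i * xx (cl i)) := h3
  have g2 : ∫ t in (0:ℝ)..2, F2 t ^ 2 ≤ 60 * QQ (fun _ => 1) S cl (fun i => β i * (ω i - xx (cl i))) := h4
  nlinarith

end cols

end Pool.Agent.H469R10.HO
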