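import Mathlib
import Pool.Agent.H469R10.HO.N3

set_option autoImplicit false

open Finset MeasureTheory

namespace Pool.Agent.H469R10.HO

lemma chi_cont : Continuous chi := by
  unfold chi
  exact Real.smoothTransition.continuous.comp (by fun_prop)

lemma chi_nonneg (x : ℝ) : 0 ≤ chi x := Real.smoothTransition.nonneg _

lemma chi_le_one (x : ℝ) : chi x ≤ 1 := Real.smoothTransition.le_one _

lemma DD_abs_le {m : ℕ} {f : ℝ → ℝ} {C : ℝ} (hC : ∀ y, |f y| ≤ C) (x : ℝ) :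
    |DD m f x| ≤ |x| ^ (2 * m) * C := by
  unfold DD
  rw [abs_mul, abs_mul, abs_of_nonneg (chi_nonneg x), abs_pow]
  have h1 := hC x⁻¹
  have h2 := chi_le_one x
  have h3 := chi_nonneg x
  have h4 : 0 ≤ |x| ^ (2 * m) := by positivity
  calc chi x * |x| ^ (2 * m) * |f x⁻¹| ≤ 1 * |x| ^ (2 * m) * C := by
        apply mul_le_mul _ h1 (abs_nonneg _) (by positivity)
        exact mul_le_mul_of_nonneg_right h2 h4
    _ = _ := by ring

lemma DD_cont {m : ℕ} (hm : 1 ≤ m) {f : ℝ → ℝ} (hf : Continuous f) {C : ℝ} (hC : ∀ y, |f y| ≤ C) :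
    Continuous (DD m f) := by
  rw [continuous_iff_continuousAt]
  intro x
  by_cases hx : x = 0
  · subst hx
    have h0 : DD m f 0 = 0 := by
      unfold DD
      have : 2 * m ≠ 0 := by omega
      simp [this]
    unfold ContinuousAt
    rw [h0]
    apply squeeze_zero_norm (a := fun x : ℝ => |x| ^ (2 * m) * C)
    · intro x
      rw [Real.norm_eq_abs]
      exact DD_abs_le hC x
    · have : Continuous fun x : ℝ => |x| ^ (2 * m) * C := by fun_prop
      have h := this.tendsto 0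
      have e : |(0:ℝ)| ^ (2 * m) * C = 0 := by
        have : 2 * m ≠ 0 := by omega
        simp [this]
      rwa [e] at h
  · unfold DD
    exact (chi_cont.continuousAt.mul (continuousAt_id.pow _)).mul
      (hf.continuousAt.comp (continuousAt_inv₀ hx))

lemma DD_cos_cont {m : ℕ} (hm : 1 ≤ m) (w : ℝ) : Continuous (DD m fun y => Real.cos (w * y)) :=
  DD_cont hm (by fun_prop) (C := 1) fun y => Real.abs_cos_le_one _

lemma PP_DD_sum {ι : Type*} {m : ℕ} (hm : 1 ≤ m) (S : Finset ι) (β ω : ι → ℝ) (j : ℕ) :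
    ∑ i ∈ S, β i * PP (DD m fun y => Real.cos (ω i * y)) j = PP (DD m fun y => ∑ i ∈ S, β i * Real.cos (ω i * y)) j := by
  rw [← PP_sum S β (fun i => DD m fun y => Real.cos (ω i * y)) (fun i _ => DD_cos_cont hm _)]
  congr 1
  funext x
  unfold DD
  rw [mul_sum]
  exact sum_congr rfl fun i _ => by ring

lemma uu_nonneg {c lam : ℝ} (hc : 0 ≤ c) (n : ℕ) : 0 ≤ uu c lam n := by unfold uu; positivity

lemma cell_near {u : ℝ} (hu : 0 ≤ u) : |u - xx (cell u)| ≤ 1 := by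
  have hpi := Real.pi_pos
  have hpi4 := Real.pi_lt_four
  have h1 : (cell u : ℝ) ≤ 2 / Real.pi * u + 1 / 2 := Nat.floor_le (by positivity)
  have h2 : 2 / Real.pi * u + 1 / 2 < cell u + 1 := Nat.lt_floor_add_one _
  have h3 : Real.pi / 2 * (2 / Real.pi * u) = u := by field_simp
  unfold xx
  have h4 : Real.pi / 2 * (cell u : ℝ) ≤ Real.pi / 2 * (2 / Real.pi * u + 1 / 2) :=
    mul_le_mul_of_nonneg_left h1 (by positivity)
  have h5 : Real.pi / 2 * (2 / Real.pi * u + 1 / 2) ≤ Real.pi / 2 * (cell u + 1) :=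
    mul_le_mul_of_nonneg_left h2.le (by positivity)
  rw [mul_add, h3] at h4 h5
  rw [abs_le]
  constructor <;> linarith

lemma cell_eq {u : ℝ} {j : ℕ} (h : |u - xx j| ≤ 1 / 2) : cell u = j := by
  have hpi := Real.pi_gt_three
  have hpi0 := Real.pi_pos
  have h1 := abs_le.1 h
  unfold cell
  have h3 : 2 / Real.pi * xx j = j := by unfold xx; field_simp
  have h4 : 2 / Real.pi * (1 / 2) < 1 / 2 := by
    rw [div_mul_eq_mul_div, div_lt_iff₀ hpi0]; linarith
  have h6 : 2 / Real.pi * (u - xx j) ≤ 2 / Real.pi * (1 / 2) := mul_le_mul_of_nonneg_left h1.2 (by positivity)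
  have h7 : 2 / Real.pi * (-(1 / 2)) ≤ 2 / Real.pi * (u - xx j) := mul_le_mul_of_nonneg_left h1.1 (by positivity)
  rw [mul_sub, h3] at h6 h7
  rw [Nat.floor_eq_iff (by
    have : (0:ℝ) ≤ j := Nat.cast_nonneg j
    linarith)]
  constructor <;> linarith

lemma uu_zero {c lam : ℝ} (hlam : 1 ≤ lam) : uu c lam 0 = 0 := by
  unfold uu
  have : (1 / lam) ≠ 0 := by positivity
  rw [Nat.cast_zero, Real.zero_rpow this, mul_zero]

lemma jj_zero {c lam : ℝ} (hlam : 1 ≤ lam) : jj c lam 0 = 0 := by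
  unfold jj
  rw [uu_zero hlam]
  unfold cell
  norm_num

section

variable (c lam : ℝ) (B : ℕ → Finset ℕ) (m : ℕ)

noncomputable def T1 (n j : ℕ) : ℝ := by
  classical
  exact if n = 0 ∨ n ∈ B (jj c lam n) then TT c lam m n j else 0

noncomputable def T2 (n j : ℕ) : ℝ := by
  classical
  exact if ¬ (n = 0 ∨ n.Prime) ∧ (Squarefree n ∧ 2 ≤ n.primeFactors.card) then TT c lam m n j else 0

def MBound (κ : ℝ) : Prop := ∀ (S : Finset ℕ) (cl : ℕ → ℕ) (ω β : ℕ → ℝ),
  (∀ i ∈ S, |ω i - xx (cl i)| ≤ 1) →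
  (∀ J : ℕ, ∑ j ∈ range J, (PP (DD m (fun y => ∑ i ∈ S, β i * Real.cos (ω i * y))) j) ^ 2 ≤
      κ * QQ (fun _ => 1) S cl β) ∧
  (∀ J : ℕ, ∑ j ∈ range J, (1 + (j : ℝ)) ^ 2 * (PP (DD m (fun y => ∑ i ∈ S, β i * Real.cos (ω i * y))) j) ^ 2 ≤
      κ * QQ (fun y => (1 + (y : ℝ)) ^ 2) S cl β)

end

lemma sum_filter_mul (S : Finset ℕ) (P : ℕ → Prop) [DecidablePred P] (β T : ℕ → ℝ) :
    ∑ n ∈ S, β n * (if P n then T n else 0) = ∑ n ∈ S.filter P, β n * T n := by
  rw [sum_filter]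
  exact sum_congr rfl fun n _ => by split_ifs <;> simp

lemma T1_bounds {c lam e κ : ℝ} {B : ℕ → Finset ℕ} {m : ℕ} (hm : 1 ≤ m) (hlam : 1 ≤ lam) (he0 : 0 ≤ e) (he : e ≤ 1 / 2)
    (hB : ∀ j, ∀ p ∈ B j, 1 ≤ j ∧ p.Prime ∧ |uu c lam p - xx j| ≤ e) (hM : MBound m κ)
    (S : Finset ℕ) (β : ℕ → ℝ) (J : ℕ) :
    (∑ j ∈ range J, (∑ n ∈ S, β n * T1 c lam B m n j) ^ 2 ≤ (800 * e ^ 2 + 2 * κ) * QQ (fun _ => 1) S (jj c lam) β) ∧
    (∑ j ∈ range J, (1 + (j : ℝ)) ^ 2 * (∑ n ∈ S, β n * T1 c lam B m n j) ^ 2 ≤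
      (800 * e ^ 2 + 2 * κ) * QQ (fun y => (1 + (y : ℝ)) ^ 2) S (jj c lam) β) := by
  classical
  have hpr : ∀ n, n ∈ B (jj c lam n) → n.Prime ∧ |uu c lam n - xx (jj c lam n)| ≤ e :=
    fun n hn => ⟨(hB _ n hn).2.1, (hB _ n hn).2.2⟩
  set S' := S.filter (fun n => n = 0 ∨ n ∈ B (jj c lam n)) with hS'
  have hnear : ∀ i ∈ S', |uu c lam i - xx (jj c lam i)| ≤ e := by
    intro i hi
    rw [hS', mem_filter] at hi
    rcases hi.2 with h | h
    · subst h
      rw [uu_zero hlam, jj_zero hlam]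
      simp [xx, he0]
    · exact (hpr i h).2
  have hnear1 : ∀ i ∈ S', |uu c lam i - xx (jj c lam i)| ≤ 1 := fun i hi => (hnear i hi).trans (by linarith)
  have e1 : ∀ j, ∑ n ∈ S, β n * T1 c lam B m n j =
      - ∑ n ∈ S', β n * PP (fun t => Real.cos (uu c lam n * t) - Real.cos (xx (jj c lam n) * t)) j +
      PP (DD m (fun y => ∑ i ∈ S', β i * Real.cos (uu c lam i * y))) j := by
    intro j
    rw [← PP_DD_sum hm, ← sum_neg_distrib, ← sum_add_distrib]
    have : ∀ n, T1 c lam B m n j = if (n = 0 ∨ n ∈ B (jj c lam n)) then TT c lam m n j else 0 := by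
      intro n; unfold T1; rfl
    simp_rw [this]
    rw [sum_filter_mul S (fun n => n = 0 ∨ n ∈ B (jj c lam n)) β (fun n => TT c lam m n j), ← hS']
    apply sum_congr rfl
    intro n hn
    have h0 : n = 0 ∨ n.Prime := by
      rw [hS', mem_filter] at hn
      rcases hn.2 with h | h
      · exact Or.inl h
      · exact Or.inr (hpr n h).1
    unfold TT
    rw [if_pos h0]
    ring
  have hsub : S' ⊆ S := filter_subset _ _
  have hq1 := QQ_subset (w := fun _ => 1) (fun _ => zero_le_one) hsub (jj c lam) β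
  have hq2 := QQ_subset (w := fun y => (1 + (y : ℝ)) ^ 2) (fun _ => by positivity) hsub (jj c lam) β
  have hn1 := QQ_nonneg (w := fun _ => 1) (fun _ => zero_le_one) S' (jj c lam) β
  have hn2 := QQ_nonneg (w := fun y => (1 + (y : ℝ)) ^ 2) (fun _ => by positivity) S' (jj c lam) β
  have hMS := hM S' (jj c lam) (uu c lam) β hnear1
  have hκ : 0 ≤ κ * QQ (fun _ => 1) S' (jj c lam) β := by simpa using hMS.1 0
  have hκ2 : 0 ≤ κ * QQ (fun y => (1 + (y : ℝ)) ^ 2) S' (jj c lam) β := by simpa using hMS.2 0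
  have hκ' : 0 ≤ κ := by
    have h := (hM {0} (fun _ => 0) (fun _ => 0) (fun _ => 1) (fun i _ => by simp [xx])).1 0
    simp [QQ] at h
    exact h
  have c1 := colR_one S' (jj c lam) (uu c lam) β hnear (range J)
  have c2 := colR_two S' (jj c lam) (uu c lam) β he0 (by linarith) hnear (range J)
  simp_rw [e1]
  constructor
  · calc ∑ j ∈ range J, (- ∑ n ∈ S', β n * PP (fun t => Real.cos (uu c lam n * t) - Real.cos (xx (jj c lam n) * t)) j +
      PP (DD m (fun y => ∑ i ∈ S', β i * Real.cos (uu c lam i * y))) j) ^ 2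
        ≤ ∑ j ∈ range J, (2 * (∑ n ∈ S', β n * PP (fun t => Real.cos (uu c lam n * t) - Real.cos (xx (jj c lam n) * t)) j) ^ 2 +
          2 * (PP (DD m (fun y => ∑ i ∈ S', β i * Real.cos (uu c lam i * y))) j) ^ 2) := by
          apply sum_le_sum; intro j _
          nlinarith [sq_nonneg ((∑ n ∈ S', β n * PP (fun t => Real.cos (uu c lam n * t) - Real.cos (xx (jj c lam n) * t)) j) +
            PP (DD m (fun y => ∑ i ∈ S', β i * Real.cos (uu c lam i * y))) j)]
      _ ≤ 2 * (24 * e ^ 2 * QQ (fun _ => 1) S' (jj c lam) β) + 2 * (κ * QQ (fun _ => 1) S' (jj c lam) β) := by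
          rw [sum_add_distrib, ← mul_sum, ← mul_sum]
          have := hMS.1 J
          linarith
      _ ≤ (800 * e ^ 2 + 2 * κ) * QQ (fun _ => 1) S' (jj c lam) β := by
          have : 0 ≤ e ^ 2 * QQ (fun _ => 1) S' (jj c lam) β := mul_nonneg (sq_nonneg _) hn1
          nlinarith
      _ ≤ _ := mul_le_mul_of_nonneg_left hq1 (by positivity)
  · calc ∑ j ∈ range J, (1 + (j : ℝ)) ^ 2 * (- ∑ n ∈ S', β n * PP (fun t => Real.cos (uu c lam n * t) - Real.cos (xx (jj c lam n) * t)) j +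
      PP (DD m (fun y => ∑ i ∈ S', β i * Real.cos (uu c lam i * y))) j) ^ 2
        ≤ ∑ j ∈ range J, (2 * ((1 + (j : ℝ)) ^ 2 * (∑ n ∈ S', β n * PP (fun t => Real.cos (uu c lam n * t) - Real.cos (xx (jj c lam n) * t)) j) ^ 2) +
          2 * ((1 + (j : ℝ)) ^ 2 * (PP (DD m (fun y => ∑ i ∈ S', β i * Real.cos (uu c lam i * y))) j) ^ 2)) := by
          apply sum_le_sum; intro j _
          have h0 : 0 ≤ (1 + (j : ℝ)) ^ 2 := by positivity
          have h1 := mul_nonneg h0 (sq_nonneg ((∑ n ∈ S', β n * PP (fun t => Real.cos (uu c lam n * t) - Real.cos (xx (jj c lam n) * t)) j) +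
            PP (DD m (fun y => ∑ i ∈ S', β i * Real.cos (uu c lam i * y))) j))
          nlinarith
      _ ≤ 2 * (400 * e ^ 2 * QQ (fun y => (1 + (y : ℝ)) ^ 2) S' (jj c lam) β) + 2 * (κ * QQ (fun y => (1 + (y : ℝ)) ^ 2) S' (jj c lam) β) := by
          rw [sum_add_distrib, ← mul_sum, ← mul_sum]
          have := hMS.2 J
          linarith
      _ = (800 * e ^ 2 + 2 * κ) * QQ (fun y => (1 + (y : ℝ)) ^ 2) S' (jj c lam) β := by ring
      _ ≤ _ := mul_le_mul_of_nonneg_left hq2 (by positivity)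

lemma T2_bounds {c lam κ : ℝ} {m : ℕ} (hm : 1 ≤ m) (hc : 0 ≤ c) (hM : MBound m κ)
    (S : Finset ℕ) (β : ℕ → ℝ) (J : ℕ) :
    (∑ j ∈ range J, (∑ n ∈ S, β n * T2 c lam m n j) ^ 2 ≤ (720 + 2 * κ) * QQ (fun _ => 1) S (jj c lam) β) ∧
    (∑ j ∈ range J, (1 + (j : ℝ)) ^ 2 * (∑ n ∈ S, β n * T2 c lam m n j) ^ 2 ≤
      (720 + 2 * κ) * QQ (fun y => (1 + (y : ℝ)) ^ 2) S (jj c lam) β) := by
  classical
  set S' := S.filter (fun n => ¬ (n = 0 ∨ n.Prime) ∧ (Squarefree n ∧ 2 ≤ n.primeFactors.card)) with hS'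
  have hnear1 : ∀ i ∈ S', |uu c lam i - xx (jj c lam i)| ≤ 1 := fun i _ => cell_near (uu_nonneg hc i)
  have e1 : ∀ j, ∑ n ∈ S, β n * T2 c lam m n j =
      - ∑ n ∈ S', β n * PP (fun t => Real.cos (uu c lam n * t)) j +
      PP (DD m (fun y => ∑ i ∈ S', β i * Real.cos (uu c lam i * y))) j := by
    intro j
    rw [← PP_DD_sum hm, ← sum_neg_distrib, ← sum_add_distrib]
    have : ∀ n, T2 c lam m n j = if (¬ (n = 0 ∨ n.Prime) ∧ (Squarefree n ∧ 2 ≤ n.primeFactors.card)) then TT c lam m n j else 0 := by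
      intro n; unfold T2; rfl
    simp_rw [this]
    rw [sum_filter_mul S (fun n => ¬ (n = 0 ∨ n.Prime) ∧ (Squarefree n ∧ 2 ≤ n.primeFactors.card)) β (fun n => TT c lam m n j), ← hS']
    apply sum_congr rfl
    intro n hn
    rw [hS', mem_filter] at hn
    unfold TT
    rw [if_neg hn.2.1, if_pos hn.2.2]
    ring
  have hsub : S' ⊆ S := filter_subset _ _
  have hq1 := QQ_subset (w := fun _ => 1) (fun _ => zero_le_one) hsub (jj c lam) β
  have hq2 := QQ_subset (w := fun y => (1 + (y : ℝ)) ^ 2) (fun _ => by positivity) hsub (jj c lam) β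
  have hn1 := QQ_nonneg (w := fun _ => 1) (fun _ => zero_le_one) S' (jj c lam) β
  have hn2 := QQ_nonneg (w := fun y => (1 + (y : ℝ)) ^ 2) (fun _ => by positivity) S' (jj c lam) β
  have hMS := hM S' (jj c lam) (uu c lam) β hnear1
  have hκ' : 0 ≤ κ := by
    have h := (hM {0} (fun _ => 0) (fun _ => 0) (fun _ => 1) (fun i _ => by simp [xx])).1 0
    simp [QQ] at h
    exact h
  have c1 := colP_one S' (jj c lam) (uu c lam) β hnear1 (range J)
  have c2 := colP_two S' (jj c lam) (uu c lam) β hnear1 (range J)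
  simp_rw [e1]
  constructor
  · calc ∑ j ∈ range J, (- ∑ n ∈ S', β n * PP (fun t => Real.cos (uu c lam n * t)) j +
      PP (DD m (fun y => ∑ i ∈ S', β i * Real.cos (uu c lam i * y))) j) ^ 2
        ≤ ∑ j ∈ range J, (2 * (∑ n ∈ S', β n * PP (fun t => Real.cos (uu c lam n * t)) j) ^ 2 +
          2 * (PP (DD m (fun y => ∑ i ∈ S', β i * Real.cos (uu c lam i * y))) j) ^ 2) := by
          apply sum_le_sum; intro j _
          nlinarith [sq_nonneg ((∑ n ∈ S', β n * PP (fun t => Real.cos (uu c lam n * t)) j) +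
            PP (DD m (fun y => ∑ i ∈ S', β i * Real.cos (uu c lam i * y))) j)]
      _ ≤ 2 * (60 * QQ (fun _ => 1) S' (jj c lam) β) + 2 * (κ * QQ (fun _ => 1) S' (jj c lam) β) := by
          rw [sum_add_distrib, ← mul_sum, ← mul_sum]
          have := hMS.1 J
          linarith
      _ ≤ (720 + 2 * κ) * QQ (fun _ => 1) S' (jj c lam) β := by nlinarith
      _ ≤ _ := mul_le_mul_of_nonneg_left hq1 (by positivity)
  · calc ∑ j ∈ range J, (1 + (j : ℝ)) ^ 2 * (- ∑ n ∈ S', β n * PP (fun t => Real.cos (uu c lam n * t)) j +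
      PP (DD m (fun y => ∑ i ∈ S', β i * Real.cos (uu c lam i * y))) j) ^ 2
        ≤ ∑ j ∈ range J, (2 * ((1 + (j : ℝ)) ^ 2 * (∑ n ∈ S', β n * PP (fun t => Real.cos (uu c lam n * t)) j) ^ 2) +
          2 * ((1 + (j : ℝ)) ^ 2 * (PP (DD m (fun y => ∑ i ∈ S', β i * Real.cos (uu c lam i * y))) j) ^ 2)) := by
          apply sum_le_sum; intro j _
          have h0 : 0 ≤ (1 + (j : ℝ)) ^ 2 := by positivity
          have h1 := mul_nonneg h0 (sq_nonneg ((∑ n ∈ S', β n * PP (fun t => Real.cos (uu c lam n * t)) j) +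
            PP (DD m (fun y => ∑ i ∈ S', β i * Real.cos (uu c lam i * y))) j))
          nlinarith
      _ ≤ 2 * (360 * QQ (fun y => (1 + (y : ℝ)) ^ 2) S' (jj c lam) β) + 2 * (κ * QQ (fun y => (1 + (y : ℝ)) ^ 2) S' (jj c lam) β) := by
          rw [sum_add_distrib, ← mul_sum, ← mul_sum]
          have := hMS.2 J
          linarith
      _ = (720 + 2 * κ) * QQ (fun y => (1 + (y : ℝ)) ^ 2) S' (jj c lam) β := by ring
      _ ≤ _ := mul_le_mul_of_nonneg_left hq2 (by positivity)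

end Pool.Agent.H469R10.HO
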