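import Mathlib
import Pool.Agent.H469R10.HO.Stmts6

set_option autoImplicit false

open Finset

namespace Pool.Agent.H469R10.HO

/-- TASK Q: contraction principle in a weighted `l^2` space, by Picard iteration. -/
def TaskQ : Prop := ∀ (W : ℕ → ℝ), (∀ j, 0 < W j) → ∀ (Φ : (ℕ → ℝ) → (ℕ → ℝ)) (ρ K : ℝ), 0 < ρ → 0 ≤ K → K < 1 →
  (∀ J : ℕ, ∑ j ∈ range J, W j * (Φ (fun _ => 0) j) ^ 2 ≤ ((1 - K) * ρ) ^ 2) →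
  (∀ b b' : ℕ → ℝ, (∀ J : ℕ, ∑ j ∈ range J, W j * b j ^ 2 ≤ ρ ^ 2) → (∀ J : ℕ, ∑ j ∈ range J, W j * b' j ^ 2 ≤ ρ ^ 2) →
    ∀ D : ℝ, 0 ≤ D → (∀ J : ℕ, ∑ j ∈ range J, W j * (b j - b' j) ^ 2 ≤ D ^ 2) →
    ∀ J : ℕ, ∑ j ∈ range J, W j * (Φ b j - Φ b' j) ^ 2 ≤ (K * D) ^ 2) →
  ∃ b : ℕ → ℝ, (∀ J : ℕ, ∑ j ∈ range J, W j * b j ^ 2 ≤ ρ ^ 2) ∧ ∀ j, b j = Φ b j

/-- TASK R: the reciprocals of the weights have bounded sums. -/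
def TaskR : Prop := ∀ c : ℝ, 0 < c → c ≤ 1 / 10 → ∀ F : Finset ℕ, ∑ y ∈ F, 1 / WW c y ≤ 2

/-- TASK S: majorant for differences of products. -/
def TaskS : Prop := ∀ (P : Finset ℕ) (a a' M D : ℕ → ℝ) (τ : ℝ), 0 < τ → (∀ i ∈ P, |a i| ≤ M i) → (∀ i ∈ P, |a' i| ≤ M i) →
  (∀ i ∈ P, |a i - a' i| ≤ D i) →
  τ * |∏ i ∈ P, a i - ∏ i ∈ P, a' i| ≤ ∏ i ∈ P, (M i + τ * D i)

/-- TASK U: the columns are bounded. -/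
def TaskU : Prop := ∀ (c lam : ℝ) (m n j : ℕ), 1 ≤ m → |TT c lam m n j| ≤ 10

end Pool.Agent.H469R10.HO
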