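import Mathlib
import Pool.Agent.H469R10.HO.N4
import Pool.Agent.H469R10.HO.Stmts7

set_option autoImplicit false

open Finset MeasureTheory

namespace Pool.Agent.H469R10.HO

/-- all hypotheses for a fixed `c` -/
structure Hyp (c lam e κ CJ CH : ℝ) (B : ℕ → Finset ℕ) (m : ℕ) : Prop where
  hc : 0 < c
  hc1 : c ≤ 1 / 10
  hlam : 1 ≤ lam
  hm : 1 ≤ m
  he0 : 0 ≤ e
  he : e ≤ 1 / 2
  hκ : 0 ≤ κ
  hCJ : 0 ≤ CJ
  hCH : 0 ≤ CH
  hB : ∀ j, ∀ p ∈ B j, 1 ≤ j ∧ p.Prime ∧ |uu c lam p - xx j| ≤ e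
  hBne : ∀ j, 1 ≤ j → (B j).Nonempty
  hM : MBound m κ
  hJ : ∀ (cl : ℕ → ℕ) (T : ℕ → ℕ → ℝ) (κ : ℝ), 0 ≤ κ →
    (∀ (S : Finset ℕ) (β : ℕ → ℝ) (J : ℕ), ∑ j ∈ range J, (∑ n ∈ S, β n * T n j) ^ 2 ≤
      κ * ∑ y ∈ S.image cl, (∑ n ∈ S.filter (fun n => cl n = y), |β n|) ^ 2) →
    (∀ (S : Finset ℕ) (β : ℕ → ℝ) (J : ℕ), ∑ j ∈ range J, (1 + (j : ℝ)) ^ 2 * (∑ n ∈ S, β n * T n j) ^ 2 ≤
      κ * ∑ y ∈ S.image cl, (1 + (y : ℝ)) ^ 2 * (∑ n ∈ S.filter (fun n => cl n = y), |β n|) ^ 2) →
    ∀ (S : Finset ℕ) (β : ℕ → ℝ) (J : ℕ), ∑ j ∈ range J, WW c j * (∑ n ∈ S, β n * T n j) ^ 2 ≤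
      CJ * κ * ∑ y ∈ S.image cl, WW c y * (∑ n ∈ S.filter (fun n => cl n = y), |β n|) ^ 2
  hH : ∀ b β : ℕ → ℝ, (∀ j, 0 ≤ b j) → (∀ j, ∀ p ∈ B j, β p = b j / (B j).card) →
    (∀ p, (∀ j, p ∉ B j) → β p = 0) →
    ∀ E : ℝ, E ≤ 1 → (∀ J, ∑ j ∈ range J, WW c j * b j ^ 2 ≤ E) →
    ∀ (S : Finset ℕ), (∀ n ∈ S, Squarefree n ∧ 2 ≤ n.primeFactors.card) → ∀ Y : ℕ,
      ∑ y ∈ range Y, WW c y * (∑ n ∈ S.filter (fun n => cell (uu c lam n) = y), ∏ p ∈ n.primeFactors, β p) ^ 2 ≤ CH * E ^ 2
  hR : ∀ F : Finset ℕ, ∑ y ∈ F, 1 / WW c y ≤ 2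
  hS : TaskS
  hU : TaskU

variable {c lam e κ CJ CH : ℝ} {B : ℕ → Finset ℕ} {m : ℕ}

lemma WW_pos (hc : 0 < c) (hc1 : c ≤ 1 / 10) (j : ℕ) : 0 < WW c j := by
  unfold WW
  have h0 : (0:ℝ) ≤ j := Nat.cast_nonneg j
  have h1 : 1 < (1 + (j:ℝ)) / c := by
    rw [one_lt_div hc]; linarith
  have := Real.log_pos h1
  positivity

namespace Hyp

variable (h : Hyp c lam e κ CJ CH B m)
include h

lemma W1 (S : Finset ℕ) (β : ℕ → ℝ) (J : ℕ) :
    ∑ j ∈ range J, WW c j * (∑ n ∈ S, β n * T1 c lam B m n j) ^ 2 ≤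
      CJ * (800 * e ^ 2 + 2 * κ) * QQ (WW c) S (jj c lam) β := by
  have h1 := fun S β J => T1_bounds h.hm h.hlam h.he0 h.he h.hB h.hM S β J
  refine h.hJ (jj c lam) (T1 c lam B m) (800 * e ^ 2 + 2 * κ) (by have := h.hκ; positivity) ?_ ?_ S β J
  · intro S β J
    have := (h1 S β J).1
    simpa [QQ] using this
  · intro S β J
    have := (h1 S β J).2
    simpa [QQ] using this

lemma W2 (S : Finset ℕ) (β : ℕ → ℝ) (J : ℕ) :
    ∑ j ∈ range J, WW c j * (∑ n ∈ S, β n * T2 c lam m n j) ^ 2 ≤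
      CJ * (720 + 2 * κ) * QQ (WW c) S (jj c lam) β := by
  have h1 := fun S β J => T2_bounds (lam := lam) h.hm h.hc.le h.hM S β J
  refine h.hJ (jj c lam) (T2 c lam m) (720 + 2 * κ) (by have := h.hκ; positivity) ?_ ?_ S β J
  · intro S β J
    have := (h1 S β J).1
    simpa [QQ] using this
  · intro S β J
    have := (h1 S β J).2
    simpa [QQ] using this

lemma jj_mem {j p : ℕ} (hp : p ∈ B j) : jj c lam p = j :=
  cell_eq ((h.hB j p hp).2.2.trans h.he)

lemma bet_mem (b : ℕ → ℝ) {j p : ℕ} (hp : p ∈ B j) : bet c lam B b p = b j / (B j).card := by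
  unfold bet
  rw [h.jj_mem hp, if_pos hp]

omit h in
lemma bet_not (b : ℕ → ℝ) {p : ℕ} (hp : ∀ j, p ∉ B j) : bet c lam B b p = 0 := by
  unfold bet
  rw [if_neg (hp _)]

omit h in
lemma alp_prime (b : ℕ → ℝ) {p : ℕ} (hp : p.Prime) : alp c lam B b p = bet c lam B b p := by
  unfold alp
  rw [if_neg hp.ne_zero, if_pos hp.prime.squarefree, hp.primeFactors, prod_singleton]

/-- `alp = T1 part + T2 part` -/
lemma split (b : ℕ → ℝ) (n j : ℕ) :
    alp c lam B b n * TT c lam m n j = alp c lam B b n * T1 c lam B m n j + alp c lam B b n * T2 c lam m n j := by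
  classical
  unfold T1 T2
  by_cases h0 : n = 0
  · subst h0; simp
  by_cases hp : n.Prime
  · by_cases hB : n ∈ B (jj c lam n)
    · simp [hp, hB]
    · have : alp c lam B b n = 0 := by
        rw [alp_prime b hp]; unfold bet; rw [if_neg hB]
      rw [this]; simp
  · have hnB : ¬ (n = 0 ∨ n ∈ B (jj c lam n)) := by
      rintro (h1 | h1)
      · exact h0 h1
      · exact hp (h.hB _ n h1).2.1
    rw [if_neg hnB, mul_zero, zero_add]
    by_cases hs : Squarefree n ∧ 2 ≤ n.primeFactors.card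
    · rw [if_pos ⟨by tauto, hs⟩]
    · rw [if_neg (by tauto)]
      unfold TT
      rw [if_neg (by tauto), if_neg hs]

/-- linear part of a difference -/
noncomputable def gg (c lam : ℝ) (B : ℕ → Finset ℕ) (b b' : ℕ → ℝ) (n : ℕ) : ℝ :=
  if n = 0 ∨ n ∈ B (jj c lam n) then alp c lam B b n - alp c lam B b' n else 0

/-- composite part of a difference -/
noncomputable def hh (c lam : ℝ) (B : ℕ → Finset ℕ) (b b' : ℕ → ℝ) (n : ℕ) : ℝ :=
  if ¬ (n = 0 ∨ n.Prime) ∧ (Squarefree n ∧ 2 ≤ n.primeFactors.card) then alp c lam B b n - alp c lam B b' n else 0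

lemma QQ_gg {b b' : ℕ → ℝ} {D : ℝ} (hD : ∀ J : ℕ, ∑ j ∈ range J, WW c j * (b j - b' j) ^ 2 ≤ D ^ 2) (S : Finset ℕ) :
    QQ (WW c) S (jj c lam) (gg c lam B b b') ≤ D ^ 2 := by
  classical
  have hW := WW_pos h.hc h.hc1
  have hin : ∀ y, ∑ n ∈ S.filter (fun n => jj c lam n = y), |gg c lam B b b' n| ≤ |b y - b' y| := by
    intro y
    by_cases hy : y = 0
    · subst hy
      calc ∑ n ∈ S.filter (fun n => jj c lam n = 0), |gg c lam B b b' n|
          ≤ ∑ n ∈ S.filter (fun n => jj c lam n = 0), (if n = 0 then |b 0 - b' 0| else 0) := by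
            apply sum_le_sum
            intro n hn
            rw [mem_filter] at hn
            unfold gg
            by_cases h0 : n = 0
            · subst h0
              simp [alp]
            · have : ¬ (n = 0 ∨ n ∈ B (jj c lam n)) := by
                rintro (h1 | h1)
                · exact h0 h1
                · have := (h.hB _ n h1).1
                  omega
              rw [if_neg this, if_neg h0]; simp
        _ ≤ |b 0 - b' 0| := by
            rw [sum_ite_eq']
            split_ifs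
            · exact le_rfl
            · exact abs_nonneg _
    · have hne := h.hBne y (by omega)
      have hcard : (0:ℝ) < (B y).card := by exact_mod_cast hne.card_pos
      calc ∑ n ∈ S.filter (fun n => jj c lam n = y), |gg c lam B b b' n|
          ≤ ∑ n ∈ S.filter (fun n => jj c lam n = y), (if n ∈ B y then |b y - b' y| / (B y).card else 0) := by
            apply sum_le_sum
            intro n hn
            rw [mem_filter] at hn
            unfold gg
            rw [hn.2]
            by_cases h0 : n = 0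
            · subst h0
              rw [jj_zero h.hlam] at hn
              exact absurd hn.2.symm hy
            by_cases h1 : n ∈ B y
            · have hpr := (h.hB y n h1).2.1
              rw [if_pos (Or.inr h1), if_pos h1, alp_prime b hpr, alp_prime b' hpr, h.bet_mem b h1, h.bet_mem b' h1,
                ← sub_div, abs_div, abs_of_pos hcard]
            · rw [if_neg (by tauto), if_neg h1]; simp
        _ ≤ ∑ n ∈ B y, |b y - b' y| / (B y).card := by
            rw [← sum_filter]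
            apply sum_le_sum_of_subset_of_nonneg
            · intro n hn
              simp only [mem_filter] at hn
              exact hn.2
            · intro n _ _; positivity
        _ = |b y - b' y| := by
            rw [sum_const, nsmul_eq_mul]; field_simp
  calc QQ (WW c) S (jj c lam) (gg c lam B b b') ≤ ∑ y ∈ S.image (jj c lam), WW c y * (b y - b' y) ^ 2 := by
        unfold QQ
        apply sum_le_sum
        intro y _
        apply mul_le_mul_of_nonneg_left _ (hW y).le
        rw [← sq_abs (b y - b' y)]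
        exact pow_le_pow_left₀ (sum_nonneg fun i _ => abs_nonneg _) (hin y) 2
    _ ≤ ∑ y ∈ range ((S.image (jj c lam)).sup id + 1), WW c y * (b y - b' y) ^ 2 := by
        apply sum_le_sum_of_subset_of_nonneg
        · intro y hy
          rw [mem_range]
          have : id y ≤ (S.image (jj c lam)).sup id := le_sup hy
          simp only [id] at this
          omega
        · intro y _ _
          exact mul_nonneg (hW y).le (sq_nonneg _)
    _ ≤ _ := hD _

lemma hh_le {b b' : ℕ → ℝ} {τ : ℝ} (hτ : 0 < τ) (n : ℕ) :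
    τ * |hh c lam B b b' n| ≤
      if ¬ (n = 0 ∨ n.Prime) ∧ (Squarefree n ∧ 2 ≤ n.primeFactors.card) then
        ∏ p ∈ n.primeFactors, bet c lam B (fun j => |b j| + |b' j| + τ * |b j - b' j|) p else 0 := by
  unfold hh
  split_ifs with hn
  · have e1 : alp c lam B b n = ∏ p ∈ n.primeFactors, bet c lam B b p := by
      unfold alp; rw [if_neg (by tauto), if_pos hn.2.1]
    have e2 : alp c lam B b' n = ∏ p ∈ n.primeFactors, bet c lam B b' p := by
      unfold alp; rw [if_neg (by tauto), if_pos hn.2.1]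
    rw [e1, e2]
    have habs : ∀ (x : ℕ → ℝ) p, |bet c lam B x p| = bet c lam B (fun j => |x j|) p := by
      intro x p
      unfold bet
      split_ifs
      · rw [abs_div, Nat.abs_cast]
      · simp
    have hadd : ∀ p, bet c lam B (fun j => |b j| + |b' j| + τ * |b j - b' j|) p =
        (|bet c lam B b p| + |bet c lam B b' p|) + τ * |bet c lam B b p - bet c lam B b' p| := by
      intro p
      have e3 : bet c lam B b p - bet c lam B b' p = bet c lam B (fun j => b j - b' j) p := by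
        unfold bet; split_ifs <;> ring
      rw [e3, habs, habs, habs]
      unfold bet
      split_ifs
      · ring
      · ring
    simp_rw [hadd]
    exact h.hS n.primeFactors (bet c lam B b) (bet c lam B b') (fun p => |bet c lam B b p| + |bet c lam B b' p|)
      (fun p => |bet c lam B b p - bet c lam B b' p|) τ hτ (fun i _ => le_add_of_nonneg_right (abs_nonneg _))
      (fun i _ => le_add_of_nonneg_left (abs_nonneg _)) (fun i _ => le_rfl)
  · simp

lemma QQ_hh {b b' : ℕ → ℝ} {ρ D τ : ℝ} (hτ : 0 < τ) (hD0 : 0 ≤ D) (hτD : τ * D ≤ ρ) (hρ : 9 * ρ ^ 2 ≤ 1)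
    (hb : ∀ J : ℕ, ∑ j ∈ range J, WW c j * b j ^ 2 ≤ ρ ^ 2) (hb' : ∀ J : ℕ, ∑ j ∈ range J, WW c j * b' j ^ 2 ≤ ρ ^ 2)
    (hD : ∀ J : ℕ, ∑ j ∈ range J, WW c j * (b j - b' j) ^ 2 ≤ D ^ 2) (S : Finset ℕ) :
    τ ^ 2 * QQ (WW c) S (jj c lam) (hh c lam B b b') ≤ CH * (9 * ρ ^ 2) ^ 2 := by
  classical
  have hW := WW_pos h.hc h.hc1
  set bt : ℕ → ℝ := fun j => |b j| + |b' j| + τ * |b j - b' j| with hbt
  have hbt0 : ∀ j, 0 ≤ bt j := fun j => by rw [hbt]; positivity
  have hE : ∀ J, ∑ j ∈ range J, WW c j * bt j ^ 2 ≤ 9 * ρ ^ 2 := by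
    intro J
    have h1 : ∀ j, WW c j * bt j ^ 2 ≤ 3 * (WW c j * b j ^ 2) + 3 * (WW c j * b' j ^ 2) + 3 * τ ^ 2 * (WW c j * (b j - b' j) ^ 2) := by
      intro j
      have hw := (hW j).le
      have : bt j ^ 2 ≤ 3 * b j ^ 2 + 3 * b' j ^ 2 + 3 * τ ^ 2 * (b j - b' j) ^ 2 := by
        rw [hbt, ← sq_abs (b j), ← sq_abs (b' j), ← sq_abs (b j - b' j)]
        simp only
        nlinarith [sq_nonneg (|b j| - |b' j|), sq_nonneg (|b j| - τ * |b j - b' j|), sq_nonneg (|b' j| - τ * |b j - b' j|)]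
      calc WW c j * bt j ^ 2 ≤ WW c j * (3 * b j ^ 2 + 3 * b' j ^ 2 + 3 * τ ^ 2 * (b j - b' j) ^ 2) :=
            mul_le_mul_of_nonneg_left this hw
        _ = _ := by ring
    refine (sum_le_sum fun j _ => h1 j).trans ?_
    rw [sum_add_distrib, sum_add_distrib, ← mul_sum, ← mul_sum, ← mul_sum]
    have a1 := hb J
    have a2 := hb' J
    have a3 := hD J
    have a4 : τ ^ 2 * D ^ 2 ≤ ρ ^ 2 := by
      rw [← mul_pow]
      exact pow_le_pow_left₀ (by positivity) hτD 2
    have a5 : 3 * τ ^ 2 * ∑ j ∈ range J, WW c j * (b j - b' j) ^ 2 ≤ 3 * τ ^ 2 * D ^ 2 :=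
      mul_le_mul_of_nonneg_left a3 (by positivity)
    nlinarith
  set S' := S.filter (fun n => Squarefree n ∧ 2 ≤ n.primeFactors.card) with hS'
  have hkey := h.hH bt (bet c lam B bt) hbt0 (fun j p hp => h.bet_mem bt hp) (fun p hp => bet_not bt hp)
    (9 * ρ ^ 2) hρ hE S' (fun n hn => (mem_filter.1 hn).2)
  have hbet0 : ∀ p, 0 ≤ bet c lam B bt p := by
    intro p
    unfold bet
    split_ifs
    · exact div_nonneg (hbt0 _) (Nat.cast_nonneg _)
    · exact le_rfl
  have hin : ∀ y, τ * ∑ n ∈ S.filter (fun n => jj c lam n = y), |hh c lam B b b' n| ≤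
      ∑ n ∈ S'.filter (fun n => cell (uu c lam n) = y), ∏ p ∈ n.primeFactors, bet c lam B bt p := by
    intro y
    rw [mul_sum]
    calc ∑ n ∈ S.filter (fun n => jj c lam n = y), τ * |hh c lam B b b' n|
        ≤ ∑ n ∈ S.filter (fun n => jj c lam n = y), (if Squarefree n ∧ 2 ≤ n.primeFactors.card then
            ∏ p ∈ n.primeFactors, bet c lam B bt p else 0) := by
          apply sum_le_sum
          intro n _
          refine (h.hh_le hτ n).trans ?_
          by_cases hs : Squarefree n ∧ 2 ≤ n.primeFactors.card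
          · rw [if_pos hs]
            split_ifs
            · exact le_rfl
            · exact prod_nonneg fun p _ => hbet0 p
          · rw [if_neg hs, if_neg (by tauto)]
      _ = ∑ n ∈ S'.filter (fun n => cell (uu c lam n) = y), ∏ p ∈ n.primeFactors, bet c lam B bt p := by
          rw [← sum_filter, hS']
          apply sum_congr _ (fun _ _ => rfl)
          change _ = (S.filter (fun n => Squarefree n ∧ 2 ≤ n.primeFactors.card)).filter (fun n => jj c lam n = y)
          ext n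
          simp only [mem_filter]
          tauto
  calc τ ^ 2 * QQ (WW c) S (jj c lam) (hh c lam B b b')
      = ∑ y ∈ S.image (jj c lam), WW c y * (τ * ∑ n ∈ S.filter (fun n => jj c lam n = y), |hh c lam B b b' n|) ^ 2 := by
        unfold QQ
        rw [mul_sum]
        exact sum_congr rfl fun y _ => by ring
    _ ≤ ∑ y ∈ S.image (jj c lam), WW c y * (∑ n ∈ S'.filter (fun n => cell (uu c lam n) = y), ∏ p ∈ n.primeFactors, bet c lam B bt p) ^ 2 := by
        apply sum_le_sum
        intro y _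
        apply mul_le_mul_of_nonneg_left _ (hW y).le
        exact pow_le_pow_left₀ (mul_nonneg hτ.le (sum_nonneg fun i _ => abs_nonneg _)) (hin y) 2
    _ ≤ ∑ y ∈ range ((S.image (jj c lam)).sup id + 1), WW c y * (∑ n ∈ S'.filter (fun n => cell (uu c lam n) = y), ∏ p ∈ n.primeFactors, bet c lam B bt p) ^ 2 := by
        apply sum_le_sum_of_subset_of_nonneg
        · intro y hy
          rw [mem_range]
          have : id y ≤ (S.image (jj c lam)).sup id := le_sup hy
          simp only [id] at this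
          omega
        · intro y _ _
          exact mul_nonneg (hW y).le (sq_nonneg _)
    _ ≤ _ := hkey _

end Hyp

end Pool.Agent.H469R10.HO
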