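import Mathlib
import Pool.Agent.H469R10.HO.N5

set_option autoImplicit false

open Finset MeasureTheory

namespace Pool.Agent.H469R10.HO

variable {c lam e κ CJ CH : ℝ} {B : ℕ → Finset ℕ} {m : ℕ}

namespace Hyp

variable (h : Hyp c lam e κ CJ CH B m)
include h

lemma fin_split (b b' : ℕ → ℝ) (S : Finset ℕ) (j : ℕ) :
    ∑ n ∈ S, (alp c lam B b n - alp c lam B b' n) * TT c lam m n j =
      ∑ n ∈ S, gg c lam B b b' n * T1 c lam B m n j + ∑ n ∈ S, hh c lam B b b' n * T2 c lam m n j := by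
  classical
  rw [← sum_add_distrib]
  apply sum_congr rfl
  intro n _
  have h1 := h.split b n j
  have h2 := h.split b' n j
  have h3 : gg c lam B b b' n * T1 c lam B m n j = (alp c lam B b n - alp c lam B b' n) * T1 c lam B m n j := by
    unfold gg T1
    split_ifs <;> ring
  have h4 : hh c lam B b b' n * T2 c lam m n j = (alp c lam B b n - alp c lam B b' n) * T2 c lam m n j := by
    unfold hh T2
    split_ifs <;> ring
  rw [h3, h4, sub_mul, h1, h2]
  ring

lemma fin_lip {b b' : ℕ → ℝ} {ρ D : ℝ} (hρ0 : 0 < ρ) (hD0 : 0 ≤ D) (hρ : 9 * ρ ^ 2 ≤ 1)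
    (hb : ∀ J : ℕ, ∑ j ∈ range J, WW c j * b j ^ 2 ≤ ρ ^ 2) (hb' : ∀ J : ℕ, ∑ j ∈ range J, WW c j * b' j ^ 2 ≤ ρ ^ 2)
    (hD : ∀ J : ℕ, ∑ j ∈ range J, WW c j * (b j - b' j) ^ 2 ≤ D ^ 2) (S : Finset ℕ) (J : ℕ) :
    ∑ j ∈ range J, WW c j * (∑ n ∈ S, (alp c lam B b n - alp c lam B b' n) * TT c lam m n j) ^ 2 ≤
      (2 * (CJ * (800 * e ^ 2 + 2 * κ)) + 2 * (CJ * (720 + 2 * κ)) * (CH * 81 * ρ ^ 2)) * D ^ 2 := by
  have hW := WW_pos h.hc h.hc1
  have hCJ := h.hCJ
  have hCH := h.hCH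
  have hκ := h.hκ
  rcases hD0.eq_or_lt with hD00 | hDpos
  · have hbb : b = b' := by
      funext j
      have h1 := hD (j + 1)
      rw [← hD00] at h1
      have h2 : WW c j * (b j - b' j) ^ 2 ≤ ∑ i ∈ range (j + 1), WW c i * (b i - b' i) ^ 2 :=
        single_le_sum (f := fun i => WW c i * (b i - b' i) ^ 2) (fun i _ => mul_nonneg (hW i).le (sq_nonneg _))
          (mem_range.2 (Nat.lt_succ_self j))
      have h3 : (b j - b' j) ^ 2 ≤ 0 := by
        have := hW j
        nlinarith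
      have h4 : b j - b' j = 0 := by nlinarith
      linarith
    subst hbb
    simp
    positivity
  · set τ := ρ / D with hτ
    have hτ0 : 0 < τ := by positivity
    have hτD : τ * D = ρ := by rw [hτ]; field_simp
    have hh1 := h.QQ_hh hτ0 hD0 hτD.le hρ hb hb' hD S
    have hh2 : QQ (WW c) S (jj c lam) (hh c lam B b b') ≤ CH * 81 * ρ ^ 2 * D ^ 2 := by
      have e1 : CH * (9 * ρ ^ 2) ^ 2 = τ ^ 2 * (CH * 81 * ρ ^ 2 * D ^ 2) := by
        rw [← hτD]; ring
      rw [e1] at hh1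
      exact le_of_mul_le_mul_left hh1 (by positivity)
    have g1 := h.QQ_gg hD S
    have w1 := h.W1 S (gg c lam B b b') J
    have w2 := h.W2 S (hh c lam B b b') J
    simp_rw [h.fin_split b b' S]
    calc ∑ j ∈ range J, WW c j * (∑ n ∈ S, gg c lam B b b' n * T1 c lam B m n j + ∑ n ∈ S, hh c lam B b b' n * T2 c lam m n j) ^ 2
        ≤ ∑ j ∈ range J, (2 * (WW c j * (∑ n ∈ S, gg c lam B b b' n * T1 c lam B m n j) ^ 2) +
          2 * (WW c j * (∑ n ∈ S, hh c lam B b b' n * T2 c lam m n j) ^ 2)) := by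
          apply sum_le_sum
          intro j _
          have := mul_nonneg (hW j).le (sq_nonneg ((∑ n ∈ S, gg c lam B b b' n * T1 c lam B m n j) - ∑ n ∈ S, hh c lam B b b' n * T2 c lam m n j))
          nlinarith
      _ = 2 * ∑ j ∈ range J, WW c j * (∑ n ∈ S, gg c lam B b b' n * T1 c lam B m n j) ^ 2 +
          2 * ∑ j ∈ range J, WW c j * (∑ n ∈ S, hh c lam B b b' n * T2 c lam m n j) ^ 2 := by
          rw [sum_add_distrib, mul_sum, mul_sum]
      _ ≤ 2 * (CJ * (800 * e ^ 2 + 2 * κ) * D ^ 2) + 2 * (CJ * (720 + 2 * κ) * (CH * 81 * ρ ^ 2 * D ^ 2)) := by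
          have a1 : CJ * (800 * e ^ 2 + 2 * κ) * QQ (WW c) S (jj c lam) (gg c lam B b b') ≤ CJ * (800 * e ^ 2 + 2 * κ) * D ^ 2 :=
            mul_le_mul_of_nonneg_left g1 (by positivity)
          have a2 : CJ * (720 + 2 * κ) * QQ (WW c) S (jj c lam) (hh c lam B b b') ≤ CJ * (720 + 2 * κ) * (CH * 81 * ρ ^ 2 * D ^ 2) :=
            mul_le_mul_of_nonneg_left hh2 (by positivity)
          linarith
      _ = _ := by ring

lemma sum_abs_le (S : Finset ℕ) (a : ℕ → ℝ) : (∑ n ∈ S, |a n|) ^ 2 ≤ 2 * QQ (WW c) S (jj c lam) a := by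
  classical
  have hW := WW_pos h.hc h.hc1
  have e1 : ∑ n ∈ S, |a n| = ∑ y ∈ S.image (jj c lam), ∑ n ∈ S.filter (fun n => jj c lam n = y), |a n| :=
    (sum_fiberwise_of_maps_to (fun i hi => mem_image_of_mem _ hi) _).symm
  rw [e1]
  have h1 := sum_sq_le_sum_mul_sum_of_sq_le_mul (S.image (jj c lam))
    (r := fun y => ∑ n ∈ S.filter (fun n => jj c lam n = y), |a n|) (f := fun y => 1 / WW c y)
    (g := fun y => WW c y * (∑ n ∈ S.filter (fun n => jj c lam n = y), |a n|) ^ 2)
    (fun y _ => (one_div_pos.2 (hW y)).le) (fun y _ => mul_nonneg (hW y).le (sq_nonneg _))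
    (fun y _ => by have := (hW y).ne'; apply le_of_eq; field_simp)
  refine h1.trans ?_
  have h2 := h.hR (S.image (jj c lam))
  exact mul_le_mul_of_nonneg_right h2 (QQ_nonneg (fun y => (hW y).le) _ _ _)

omit h in
lemma alp_zero (n : ℕ) : alp c lam B (fun _ => 0) n = if n = 1 then 1 else 0 := by
  unfold alp
  by_cases h0 : n = 0
  · subst h0; simp
  by_cases h1 : n = 1
  · subst h1; simp
  rw [if_neg h0, if_neg h1]
  split_ifs with hs
  · obtain ⟨p, hp⟩ := Nat.exists_prime_and_dvd h1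
    apply prod_eq_zero (i := p)
    · exact Nat.mem_primeFactors.2 ⟨hp.1, hp.2, h0⟩
    · unfold bet; split_ifs <;> simp
  · rfl

lemma abs_alp_le (b : ℕ → ℝ) (n : ℕ) : |alp c lam B b n| ≤
    |gg c lam B b (fun _ => 0) n| + |hh c lam B b (fun _ => 0) n| + if n = 1 then 1 else 0 := by
  by_cases h1 : n = 1
  · subst h1
    rw [if_pos rfl]
    have : alp c lam B b 1 = 1 := by unfold alp; simp
    rw [this]
    have a1 := abs_nonneg (gg c lam B b (fun _ => 0) 1)
    have a2 := abs_nonneg (hh c lam B b (fun _ => 0) 1)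
    simp only [abs_one]
    linarith
  rw [if_neg h1, add_zero]
  by_cases hg : n = 0 ∨ n ∈ B (jj c lam n)
  · have : gg c lam B b (fun _ => 0) n = alp c lam B b n := by
      unfold gg; rw [if_pos hg, alp_zero, if_neg h1, sub_zero]
    rw [this]
    exact le_add_of_nonneg_right (abs_nonneg _)
  by_cases hc : ¬ (n = 0 ∨ n.Prime) ∧ (Squarefree n ∧ 2 ≤ n.primeFactors.card)
  · have : hh c lam B b (fun _ => 0) n = alp c lam B b n := by
      unfold hh; rw [if_pos hc, alp_zero, if_neg h1, sub_zero]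
    rw [this]
    exact le_add_of_nonneg_left (abs_nonneg _)
  · have : alp c lam B b n = 0 := by
      by_cases hp : n.Prime
      · rw [alp_prime b hp]; unfold bet; rw [if_neg (by tauto)]
      · unfold alp
        rw [if_neg (by tauto)]
        split_ifs with hs
        · exfalso
          apply hc
          refine ⟨by tauto, hs, ?_⟩
          by_contra hcard
          have h2 : n.primeFactors.card ≤ 1 := by omega
          have h0 : n ≠ 0 := by tauto
          have h3 : ∏ p ∈ n.primeFactors, p = n := Nat.prod_primeFactors_of_squarefree hs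
          rcases Nat.eq_zero_or_pos n.primeFactors.card with h4 | h4
          · rw [card_eq_zero] at h4
            rw [h4] at h3
            simp at h3
            exact h1 h3.symm
          · have h5 : n.primeFactors.card = 1 := by omega
            obtain ⟨p, hp2⟩ := card_eq_one.1 h5
            rw [hp2, prod_singleton] at h3
            have : p ∈ n.primeFactors := by rw [hp2]; exact mem_singleton_self p
            rw [h3] at this
            exact hp (Nat.prime_of_mem_primeFactors this)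
        · rfl
    rw [this]
    simp only [abs_zero]
    positivity

lemma summable_alp {b : ℕ → ℝ} {ρ : ℝ} (hρ0 : 0 < ρ) (hρ : 9 * ρ ^ 2 ≤ 1)
    (hb : ∀ J : ℕ, ∑ j ∈ range J, WW c j * b j ^ 2 ≤ ρ ^ 2) : Summable fun n => |alp c lam B b n| := by
  have hz : ∀ J : ℕ, ∑ j ∈ range J, WW c j * (fun _ : ℕ => (0:ℝ)) j ^ 2 ≤ ρ ^ 2 := by
    intro J; simp; positivity
  have hd : ∀ J : ℕ, ∑ j ∈ range J, WW c j * (b j - (fun _ : ℕ => (0:ℝ)) j) ^ 2 ≤ ρ ^ 2 := by
    intro J; simpa using hb J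
  apply summable_of_sum_le (c := Real.sqrt (2 * ρ ^ 2) + Real.sqrt (2 * (CH * (9 * ρ ^ 2) ^ 2)) + 1)
  · intro n; exact abs_nonneg _
  · intro S
    have g1 := h.QQ_gg hd S
    have g2 := h.QQ_hh (τ := 1) one_pos hρ0.le (by rw [one_mul]) hρ hb hz hd S
    rw [one_pow, one_mul] at g2
    have s1 := h.sum_abs_le S (gg c lam B b (fun _ => 0))
    have s2 := h.sum_abs_le S (hh c lam B b (fun _ => 0))
    have t1 : ∑ n ∈ S, |gg c lam B b (fun _ => 0) n| ≤ Real.sqrt (2 * ρ ^ 2) :=
      Real.le_sqrt_of_sq_le (by linarith)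
    have t2 : ∑ n ∈ S, |hh c lam B b (fun _ => 0) n| ≤ Real.sqrt (2 * (CH * (9 * ρ ^ 2) ^ 2)) :=
      Real.le_sqrt_of_sq_le (by linarith)
    calc ∑ n ∈ S, |alp c lam B b n| ≤ ∑ n ∈ S, (|gg c lam B b (fun _ => 0) n| + |hh c lam B b (fun _ => 0) n| + if n = 1 then 1 else 0) :=
          sum_le_sum fun n _ => h.abs_alp_le b n
      _ = ∑ n ∈ S, |gg c lam B b (fun _ => 0) n| + ∑ n ∈ S, |hh c lam B b (fun _ => 0) n| + ∑ n ∈ S, (if n = 1 then (1:ℝ) else 0) := by
          rw [sum_add_distrib, sum_add_distrib]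
      _ ≤ _ := by
          have : ∑ n ∈ S, (if n = 1 then (1:ℝ) else 0) ≤ 1 := by
            rw [sum_ite_eq']
            split_ifs <;> norm_num
          linarith

lemma summable_term {b : ℕ → ℝ} (hs : Summable fun n => |alp c lam B b n|) (j : ℕ) :
    Summable fun n => alp c lam B b n * TT c lam m n j := by
  refine Summable.of_norm_bounded (hs.mul_right 10) fun n => ?_
  rw [Real.norm_eq_abs, abs_mul]
  exact mul_le_mul_of_nonneg_left (h.hU c lam m n j h.hm) (abs_nonneg _)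

/-- **Existence of the fixed point** for an arbitrary source. -/
theorem fixed (hQ : TaskQ) {ρ : ℝ} (hρ0 : 0 < ρ) (hρ : 9 * ρ ^ 2 ≤ 1)
    (hK : 2 * (CJ * (800 * e ^ 2 + 2 * κ)) + 2 * (CJ * (720 + 2 * κ)) * (CH * 81 * ρ ^ 2) ≤ 1 / 4)
    (s : ℕ → ℝ) (hs : ∀ J : ℕ, ∑ j ∈ range J, WW c j * s j ^ 2 ≤ (ρ / 2) ^ 2) :
    ∃ b : ℕ → ℝ, (∀ J : ℕ, ∑ j ∈ range J, WW c j * b j ^ 2 ≤ ρ ^ 2) ∧
      (Summable fun n => |alp c lam B b n|) ∧
      ∀ j, b j = s j + ∑' n, alp c lam B b n * TT c lam m n j := by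
  have hW := WW_pos h.hc h.hc1
  suffices key : ∃ b : ℕ → ℝ, (∀ J : ℕ, ∑ j ∈ range J, WW c j * b j ^ 2 ≤ ρ ^ 2) ∧
      ∀ j, b j = s j + ∑' n, alp c lam B b n * TT c lam m n j by
    obtain ⟨b, hb1, hb2⟩ := key
    exact ⟨b, hb1, h.summable_alp hρ0 hρ hb1, hb2⟩
  refine hQ (WW c) hW (fun b j => s j + ∑' n, alp c lam B b n * TT c lam m n j) ρ (1 / 2) hρ0
    (by norm_num) (by norm_num) ?_ ?_
  · intro J
    have e1 : ∀ j, ∑' n, alp c lam B (fun _ => 0) n * TT c lam m n j = 0 := by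
      intro j
      have : ∀ n, alp c lam B (fun _ => 0) n * TT c lam m n j = 0 := by
        intro n
        rw [alp_zero]
        split_ifs with h1
        · subst h1
          unfold TT
          simp
          intro hp1
          exact absurd hp1 Nat.not_prime_one
        · simp
      simp_rw [this]
      exact tsum_zero
    simp_rw [e1, add_zero]
    refine (hs J).trans (le_of_eq ?_)
    ring
  · intro b b' hb hb' D hD0 hD J
    have hsb := h.summable_alp hρ0 hρ hb
    have hsb' := h.summable_alp hρ0 hρ hb'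
    have e1 : ∀ j, (s j + ∑' n, alp c lam B b n * TT c lam m n j) - (s j + ∑' n, alp c lam B b' n * TT c lam m n j) =
        ∑' n, (alp c lam B b n - alp c lam B b' n) * TT c lam m n j := by
      intro j
      rw [add_sub_add_left_eq_sub, ← (h.summable_term hsb j).tsum_sub (h.summable_term hsb' j)]
      exact tsum_congr fun n => by ring
    simp_rw [e1]
    have hsum : ∀ j, HasSum (fun n => (alp c lam B b n - alp c lam B b' n) * TT c lam m n j)
        (∑' n, (alp c lam B b n - alp c lam B b' n) * TT c lam m n j) := by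
      intro j
      apply Summable.hasSum
      have := (h.summable_term hsb j).sub (h.summable_term hsb' j)
      refine this.congr fun n => by ring
    have ht : Filter.Tendsto (fun S : Finset ℕ => ∑ j ∈ range J, WW c j * (∑ n ∈ S, (alp c lam B b n - alp c lam B b' n) * TT c lam m n j) ^ 2)
        Filter.atTop (nhds (∑ j ∈ range J, WW c j * (∑' n, (alp c lam B b n - alp c lam B b' n) * TT c lam m n j) ^ 2)) :=
      tendsto_finsetSum _ fun j _ => ((hsum j).pow 2).const_mul _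
    refine le_of_tendsto' ht fun S => ?_
    refine (h.fin_lip hρ0 hD0 hρ hb hb' hD S J).trans ?_
    calc _ ≤ 1 / 4 * D ^ 2 := mul_le_mul_of_nonneg_right hK (sq_nonneg _)
      _ = _ := by ring

end Hyp

end Pool.Agent.H469R10.HO
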