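import Mathlib
import Pool.Agent.H469R10.HO.N6
import Pool.Agent.H82R3.Task469J
import Pool.Agent.H154R3.Task469K
import Pool.Agent.H99R3.Task469M
import Pool.Agent.H853R3.Task469H
import Pool.Agent.H5R3.Task469N
import Pool.Agent.H54R3.Task469O
import Pool.Agent.H180R3.Task469P
import Pool.Agent.H180R3.Task469Q
import Pool.Agent.H853R3.Task469RS
import Pool.Agent.H853R3.Task469U

set_option autoImplicit false

open Finset

namespace Pool.Agent.H469R10.HO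

/-- **All constants packaged.** For every large `m` and every large `lam` there are constants such that
for every small `c` there are blocks `B` with all hypotheses `Hyp` of the fixed point theorem. -/
theorem exists_hyp (hHo : Hoheisel) : ∃ (m₀ : ℕ) (lam₀ : ℝ), 8 ≤ lam₀ ∧ ∀ m : ℕ, m₀ ≤ m → ∀ lam : ℝ, lam₀ ≤ lam →
    ∃ e κ CJ CH η ρ c₀ : ℝ, 0 < e ∧ e ≤ 1 / 2 ∧ 0 < η ∧ 0 < ρ ∧ 9 * ρ ^ 2 ≤ 1 ∧
      2 * (CJ * (800 * e ^ 2 + 2 * κ)) + 2 * (CJ * (720 + 2 * κ)) * (CH * 81 * ρ ^ 2) ≤ 1 / 4 ∧ 0 < c₀ ∧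
      ∀ c : ℝ, 0 < c → c ≤ c₀ → ∃ B : ℕ → Finset ℕ, Hyp c lam e κ CJ CH B m ∧
        (∀ j, 1 ≤ j → (B j).Nonempty ∧ ∀ p ∈ B j, η * p ≤ (B j).card * xx j * Real.log p) := by
  obtain ⟨lamK, hK⟩ := Pool.Agent.H154R3.Blocks.taskK hHo
  obtain ⟨CJ, cJ, hCJ, hcJ, hJ⟩ := Pool.Agent.H82R3.T469J.taskJ
  -- choice of `e`, `κ`
  set κ : ℝ := 1 / (64 * (CJ + 1)) with hκdef
  have hCJ1 : 0 < CJ + 1 := by linarith
  have hκ : 0 < κ := by positivity
  have hκCJ : CJ * κ ≤ 1 / 64 := by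
    rw [hκdef, mul_one_div, div_le_div_iff₀ (by positivity) (by norm_num)]
    linarith
  set e : ℝ := min (1 / 2) (1 / (1600 * (CJ + 1))) with hedef
  have he0 : 0 < e := lt_min (by norm_num) (by positivity)
  have he : e ≤ 1 / 2 := min_le_left _ _
  have heCJ : CJ * e ≤ 1 / 1600 := by
    have h1 : e ≤ 1 / (1600 * (CJ + 1)) := min_le_right _ _
    have h2 : CJ * e ≤ CJ * (1 / (1600 * (CJ + 1))) := mul_le_mul_of_nonneg_left h1 hCJ.le
    refine h2.trans ?_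
    rw [mul_one_div, div_le_div_iff₀ (by positivity) (by norm_num)]
    linarith
  obtain ⟨m₀, hm₀⟩ := Pool.Agent.H99R3.M469.taskM κ hκ
  refine ⟨max m₀ 2, max lamK 8, le_max_right _ _, fun m hm lam hlam => ?_⟩
  have hm2 : 2 ≤ m := (le_max_right _ _).trans hm
  have hm0 : m₀ ≤ m := (le_max_left _ _).trans hm
  have hlam8 : 8 ≤ lam := (le_max_right _ _).trans hlam
  have hlamK : lamK ≤ lam := (le_max_left _ _).trans hlam
  obtain ⟨η, cK, hη, hcK, hKB⟩ := hK lam hlamK e he0 he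
  obtain ⟨CH, cH, hCH, hcH, hH⟩ := Pool.Agent.H853R3.NL.taskH lam η hlam8 hη
  -- choice of `ρ`
  set G : ℝ := 2 * (CJ * (720 + 2 * κ)) * (CH * 81) with hG
  have hG0 : 0 < G := by positivity
  set ρ : ℝ := min (1 / 3) (1 / (16 * (G + 1))) with hρdef
  have hρ0 : 0 < ρ := lt_min (by norm_num) (by positivity)
  have hρ3 : ρ ≤ 1 / 3 := min_le_left _ _
  have hρ9 : 9 * ρ ^ 2 ≤ 1 := by nlinarith
  have hGρ : G * ρ ≤ 1 / 16 := by
    have h1 : ρ ≤ 1 / (16 * (G + 1)) := min_le_right _ _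
    have h2 : G * ρ ≤ G * (1 / (16 * (G + 1))) := mul_le_mul_of_nonneg_left h1 hG0.le
    refine h2.trans ?_
    rw [mul_one_div, div_le_div_iff₀ (by positivity) (by norm_num)]
    linarith
  have hGρ2 : 2 * (CJ * (720 + 2 * κ)) * (CH * 81 * ρ ^ 2) ≤ 1 / 16 := by
    have : 2 * (CJ * (720 + 2 * κ)) * (CH * 81 * ρ ^ 2) = (G * ρ) * ρ := by rw [hG]; ring
    rw [this]
    have h3 : 0 ≤ G * ρ := by positivity
    nlinarith
  have hfin : 2 * (CJ * (800 * e ^ 2 + 2 * κ)) + 2 * (CJ * (720 + 2 * κ)) * (CH * 81 * ρ ^ 2) ≤ 1 / 4 := by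
    have h1 : 2 * (CJ * (800 * e ^ 2 + 2 * κ)) = 2 * (CJ * (800 * e ^ 2)) + 4 * (CJ * κ) := by ring
    have h5 : CJ * (800 * e ^ 2) ≤ 1 / 32 := by
      have : CJ * (800 * e ^ 2) = 800 * (CJ * e) * e := by ring
      rw [this]
      have h2 : 0 ≤ CJ * e := by positivity
      have h6 : e ≤ 1 / 1600 := by
        refine (min_le_right _ _).trans ?_
        rw [div_le_div_iff₀ (by positivity) (by norm_num)]
        nlinarith
      nlinarith
    rw [h1]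
    linarith
  refine ⟨e, κ, CJ, CH, η, ρ, min (min cJ cK) (min cH (1 / 10)), he0, he, hη, hρ0, hρ9, hfin,
    lt_min (lt_min hcJ hcK) (lt_min hcH (by norm_num)), fun c hc hcc => ?_⟩
  have hc1 : c ≤ cJ := hcc.trans ((min_le_left _ _).trans (min_le_left _ _))
  have hc2 : c ≤ cK := hcc.trans ((min_le_left _ _).trans (min_le_right _ _))
  have hc3 : c ≤ cH := hcc.trans ((min_le_right _ _).trans (min_le_left _ _))
  have hc4 : c ≤ 1 / 10 := hcc.trans ((min_le_right _ _).trans (min_le_right _ _))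
  obtain ⟨B, hB1, hB2⟩ := hKB c hc hc2
  refine ⟨B, ?_, hB2⟩
  exact
    { hc := hc
      hc1 := hc4
      hlam := by linarith
      hm := by omega
      he0 := he0.le
      he := he
      hκ := hκ.le
      hCJ := hCJ.le
      hCH := hCH.le
      hB := hB1
      hBne := fun j hj => (hB2 j hj).1
      hM := hm₀ m hm0
      hJ := hJ c hc hc1
      hH := fun b β h1 h2 h3 E hE h4 S hS Y =>
        hH c hc hc3 B (fun j p hp => ⟨(hB1 j p hp).1, (hB1 j p hp).2.1, (hB1 j p hp).2.2.trans he⟩) hB2 b β h1 h2 h3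
          E hE h4 S hS Y
      hR := Pool.Agent.H853R3.RS.taskR' c hc hc4
      hS := Pool.Agent.H853R3.RS.taskS'
      hU := Pool.Agent.H853R3.U469.taskU }

/-- **Core in the strongest form**: for every large `m` and every small `c`. -/
theorem core_all (hHo : Hoheisel) : ∃ m₀ : ℕ, 2 ≤ m₀ ∧ ∀ m : ℕ, m₀ ≤ m → ∃ c₀ : ℝ, 0 < c₀ ∧ ∀ c : ℝ, 0 < c → c ≤ c₀ →
    ∃ β α : ℕ → ℝ,
      (∀ p : ℕ, p.Prime → |β p| ≤ (p : ℝ) ^ (-(1 / 2 + m / lamOf m)) * (p : ℝ) ^ (-(1 / (6 * lamOf m)))) ∧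
      (∀ n : ℕ, 1 ≤ n → α n = if Squarefree n then ∏ p ∈ n.primeFactors, β p else 0) ∧
      Summable (fun n => |α n|) ∧
      (∀ x : ℝ, 0 < x → ∑' n, α n * Real.cos (uu c (lamOf m) n * x) =
        x ^ (2 * m) * ∑' n, α n * Real.cos (uu c (lamOf m) n / x)) := by
  obtain ⟨m₁, lam₀, hlam8, hH⟩ := exists_hyp hHo
  refine ⟨max (max m₁ 2) ⌈lam₀⌉₊, (le_max_right _ _).trans (le_max_left _ _), fun m hm => ?_⟩
  have hm1 : m₁ ≤ m := ((le_max_left _ _).trans (le_max_left _ _)).trans hm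
  have hm2 : 2 ≤ m := ((le_max_right _ _).trans (le_max_left _ _)).trans hm
  have hm3 : lam₀ ≤ m := Nat.ceil_le.mp ((le_max_right _ _).trans hm)
  have hmR : (2:ℝ) ≤ m := by exact_mod_cast hm2
  have hlam : lam₀ ≤ lamOf m := by unfold lamOf; linarith
  obtain ⟨e, κ, CJ, CH, η, ρ, c₁, he0, he, hη, hρ0, hρ9, hfin, hc₁, hyp⟩ := hH m hm1 (lamOf m) hlam
  obtain ⟨cN, hcN, hN⟩ := Pool.Agent.H5R3.T469N.taskN m hm2 ((ρ / 2) ^ 2) (by positivity)
  obtain ⟨cP, hcP, hP⟩ := Pool.Agent.H180R3.P469.taskP m (by omega) η hη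
  refine ⟨min c₁ (min cN cP), lt_min hc₁ (lt_min hcN hcP), fun c hc hcc => ?_⟩
  obtain ⟨B, h, hB2⟩ := hyp c hc (hcc.trans (min_le_left _ _))
  have hcN' : c ≤ cN := hcc.trans ((min_le_right _ _).trans (min_le_left _ _))
  have hcP' : c ≤ cP := hcc.trans ((min_le_right _ _).trans (min_le_right _ _))
  obtain ⟨b, hb1, hb2, hb3⟩ := h.fixed Pool.Agent.H180R3.Q469.taskQ hρ0 hρ9 hfin (ss c m) (hN c hc hcN')
  have hBh : ∀ j, ∀ p ∈ B j, 1 ≤ j ∧ p.Prime ∧ |uu c (lamOf m) p - xx j| ≤ 1 / 2 :=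
    fun j p hp => ⟨(h.hB j p hp).1, (h.hB j p hp).2.1, (h.hB j p hp).2.2.trans he⟩
  refine ⟨bet c (lamOf m) B b, fun n => if n = 0 then b 0 - 1 else
    if Squarefree n then ∏ p ∈ n.primeFactors, bet c (lamOf m) B b p else 0, ?_, ?_, ?_, ?_⟩
  · intro p hp
    refine hP c hc hcP' B hBh hB2 b (fun j => ?_) p hp
    have h1 := hb1 (j + 1)
    rw [Finset.sum_range_succ] at h1
    have h2 : 0 ≤ ∑ i ∈ range j, WW c i * b i ^ 2 :=
      Finset.sum_nonneg fun i _ => mul_nonneg (WW_pos h.hc h.hc1 i).le (sq_nonneg _)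
    have h3 : ρ ^ 2 ≤ 1 := by nlinarith [sq_nonneg ρ]
    linarith
  · intro n hn
    simp only []
    rw [if_neg (by omega)]
  · refine hb2.congr_cofinite ?_
    rw [Filter.EventuallyEq, Filter.eventually_cofinite]
    refine (Set.finite_singleton 0).subset ?_
    intro n hn
    by_contra h0
    apply hn
    have h0' : n ≠ 0 := h0
    simp only [alp, if_neg h0']
  · exact Pool.Agent.H54R3.T469O.taskO c (lamOf m) m B b hc h.hlam hm2 hBh h.hBne hb2 hb3 _ (fun n => rfl)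

theorem core_of_hoheisel (hHo : Hoheisel) : Core := by
  obtain ⟨m, hm2, h⟩ := core_all hHo
  obtain ⟨c, hc, h1⟩ := h m le_rfl
  obtain ⟨β, α, hβ, hα, hs, hrel⟩ := h1 c hc le_rfl
  refine ⟨m, c, β, α, 1, by omega, hc, Or.inl rfl, fun p hp => (hβ p hp).trans ?_, hα, hs, fun x hx => ?_⟩
  · have hp1 : (1:ℝ) ≤ p := by exact_mod_cast hp.one_lt.le
    have hl : 0 < lamOf m := by
      have : (2:ℝ) ≤ m := by exact_mod_cast hm2
      unfold lamOf; linarith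
    refine mul_le_of_le_one_right (by positivity) ?_
    exact Real.rpow_le_one_of_one_le_of_nonpos hp1 (by rw [neg_nonpos]; positivity)
  · rw [one_mul]; exact hrel x hx

end Pool.Agent.H469R10.HO
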