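import Mathlib
import Pool.Agent.H469R10.HO.N7
import Pool.Agent.H295R3.Task469D
import Pool.Agent.H180R3.Task469ACE
import Pool.Agent.H154R3.Task469B
import Pool.Agent.H144R3.Task469F
import Pool.Agent.H853R3.Task469G
import Pool.Agent.H902R3.Task469I

set_option autoImplicit false

namespace Pool.Agent.H469R10.HO

/-- primes in short intervals `[X, X + X^(1-δ)]`, positive proportion -/
theorem hoheisel : Hoheisel :=
  Pool.Agent.H180R3.E469.hoheisel_of_selbergShort
    (Pool.Agent.H295R3.D.task469D Pool.Agent.H154R3.Fund.fundLemma)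

theorem core : Core := core_of_hoheisel hoheisel

theorem selb : Selb :=
  Pool.Agent.H902R3.I469.taskI Pool.Agent.H144R3.T469F.taskF Pool.Agent.H853R3.Bol.taskG core

end Pool.Agent.H469R10.HO
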